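import Pool.Agent.Y561.RF.Good

/-!
A set of true sentences, given by simple schemes, that proves all axioms of `Sigma^1_1-AC_0`.
-/

set_option autoImplicit false

namespace Pool.Agent.Y561.RF

open Pool.Agent.H986R3.SOA Function

/-- The formula `ψ` is put in the place of the marked atomic formulas. -/
def fill (ψ : Fm) : Fm → Fm
  | .eq s t => .eq s t
  | .lt s t => .lt s t
  | .mem t q => if q = 999 then ψ else .mem t q
  | .neg φ => .neg (fill ψ φ)
  | .and φ χ => .and (fill ψ φ) (fill ψ χ)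
  | .all i φ => .all i (fill ψ φ)
  | .allS i φ => .allS i (fill ψ φ)

/-- The code of `fill ψ φ` as a term in the code of `ψ`. -/
def ctx (y : Tm) : Fm → Tm
  | .eq s t => numeral (Fm.eq s t).code
  | .lt s t => numeral (Fm.lt s t).code
  | .mem t q => if q = 999 then y else numeral (Fm.mem t q).code
  | .neg φ => prT (numeral 3) (ctx y φ)
  | .and φ χ => prT (numeral 4) (prT (ctx y φ) (ctx y χ))
  | .all i φ => prT (numeral 5) (prT (numeral i) (ctx y φ))
  | .allS i φ => prT (numeral 6) (prT (numeral i) (ctx y φ))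

theorem std_num' (n : ℕ) : std.num n = (n : ℕ) := std_num n

theorem ctx_fv (y : Tm) (φ : Fm) : (ctx y φ).fv ⊆ y.fv := by
  induction φ with
  | eq s t => intro x hx; simp [ctx, numeral_fv] at hx
  | lt s t => intro x hx; simp [ctx, numeral_fv] at hx
  | mem t q =>
    intro x hx
    simp only [ctx] at hx
    split_ifs at hx
    · exact hx
    · simp [numeral_fv] at hx
  | neg φ ih =>
    intro x hx
    simp only [ctx, Tm.fv_prT, numeral_fv, Set.mem_union, Set.mem_empty_iff_false, false_or] at hx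
    exact ih hx
  | and φ χ ih1 ih2 =>
    intro x hx
    simp only [ctx, Tm.fv_prT, numeral_fv, Set.mem_union, Set.mem_empty_iff_false, false_or] at hx
    rcases hx with hx | hx
    · exact ih1 hx
    · exact ih2 hx
  | all i φ ih =>
    intro x hx
    simp only [ctx, Tm.fv_prT, numeral_fv, Set.mem_union, Set.mem_empty_iff_false, false_or] at hx
    exact ih hx
  | allS i φ ih =>
    intro x hx
    simp only [ctx, Tm.fv_prT, numeral_fv, Set.mem_union, Set.mem_empty_iff_false, false_or] at hx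
    exact ih hx

theorem ctx_val (y : Tm) (ψ : Fm) (v : ℕ → ℕ) (hy : y.val std v = ψ.code) (φ : Fm) :
    @Eq ℕ ((ctx y φ).val std v) (fill ψ φ).code := by
  have hp : ∀ (s t : Tm) (a b : ℕ), s.val std v = a → t.val std v = b →
      @Eq ℕ ((prT s t).val std v) (pr a b) := by
    intro s t a b h1 h2
    rw [val_prT, h1, h2]
    rfl
  have hn : ∀ n : ℕ, (numeral n).val std v = (n : ℕ) := by
    intro n
    rw [val_numeral]
    exact std_num n
  induction φ with
  | eq s t => exact hn _
  | lt s t => exact hn _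
  | mem t q =>
    simp only [ctx, fill]
    split_ifs
    · exact hy
    · exact hn _
  | neg φ ih => exact hp _ _ _ _ (hn 3) ih
  | and φ χ ih1 ih2 => exact hp _ _ _ _ (hn 4) (hp _ _ _ _ ih1 ih2)
  | all i φ ih => exact hp _ _ _ _ (hn 5) (hp _ _ _ _ (hn i) ih)
  | allS i φ ih => exact hp _ _ _ _ (hn 6) (hp _ _ _ _ (hn i) ih)

/-- The place for a formula. -/
def hole : Fm := .mem .zero 999

/-- `X_j` is the join of `X_p` and `X_x`. -/
def joinF (p x j : ℕ) : Fm :=
  .all 4 (.and (.iff (.mem (prT (numeral 0) (.var 4)) j) (.mem (.var 4) p))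
    (.iff (.mem (prT (numeral 1) (.var 4)) j) (.mem (.var 4) x)))

/-- Comprehension with one number parameter and one set parameter. -/
def compTmp : Fm := .allS 0 (.all 1 (.exS 1 (.all 0 (.iff (.mem (.var 0) 1) hole))))

/-- Choice with one number parameter and one set parameter. -/
def acTmp : Fm :=
  .allS 1 (.all 1 (.imp (.all 0 (.exS 2 (.exS 0 (.and (joinF 1 2 0) hole))))
    (.exS 3 (.all 0 (.exS 2 (.and
      (.all 4 (.iff (.mem (.var 4) 2) (.mem (prT (.var 0) (.var 4)) 3)))
      (.exS 0 (.and (joinF 1 2 0) hole))))))))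

/-- `ψ` with universal quantifiers for the number variables `0, 1` and the set variable `0`. -/
def clTmp : Fm := .allS 0 (.all 0 (.all 1 hole))

/-- The axioms of the base theory that are not instances of a scheme. -/
def baseL : List Fm :=
  [ .all 1 (.all 0 (.neg (.eq (.add (.var 0) .one) .zero))),
    .all 1 (.all 0 (.imp (.eq (.add (.var 0) .one) (.add (.var 1) .one)) (.eq (.var 0) (.var 1)))),
    .all 1 (.all 0 (.eq (.add (.var 0) .zero) (.var 0))),
    .all 1 (.all 0 (.eq (.add (.var 0) (.add (.var 1) .one))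
      (.add (.add (.var 0) (.var 1)) .one))),
    .all 1 (.all 0 (.eq (.mul (.var 0) .zero) .zero)),
    .all 1 (.all 0 (.eq (.mul (.var 0) (.add (.var 1) .one))
      (.add (.mul (.var 0) (.var 1)) (.var 0)))),
    .all 1 (.all 0 (.neg (.lt (.var 0) .zero))),
    .all 1 (.all 0 (.iff (.lt (.var 0) (.add (.var 1) .one))
      (.or (.lt (.var 0) (.var 1)) (.eq (.var 0) (.var 1))))),
    .allS 0 (.imp (.and (.mem .zero 0)
      (.all 0 (.imp (.mem (.var 0) 0) (.mem (.add (.var 0) .one) 0)))) (.all 0 (.mem (.var 0) 0))),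
    .all 1 (.all 0 (.all 2 (.all 3 (.imp (.eq (prT (.var 0) (.var 1)) (prT (.var 2) (.var 3)))
      (.and (.eq (.var 0) (.var 2)) (.eq (.var 1) (.var 3))))))),
    .allS 0 (.allS 1 (.exS 2 (joinF 0 1 2))) ]

/-- The base theory. -/
def baseT : Set Fm :=
  {φ | φ ∈ baseL ∨ (∃ ψ, Small ψ ∧ φ = fill ψ compTmp) ∨ ∃ ψ, Small ψ ∧ φ = fill ψ acTmp}

theorem Sat_joinF {M : Model} (v : ℕ → M.Num) (V : ℕ → Set M.Num) (p x j : ℕ) :
    Sat M v V (joinF p x j) ↔ IsJoin M (V p) (V x) (V j) := by
  simp only [joinF, Sat, Sat_iff, val_prT, val_numeral, Tm.val, update_self, IsJoin]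

theorem Sat_small {M : Model} {ψ : Fm} (h : Small ψ) (v : ℕ → M.Num) (V : ℕ → Set M.Num) :
    Sat M v V ψ ↔ Sat M (as2 (v 0) (v 1)) (fun _ => V 0) ψ := by
  refine Sat_congr M ψ _ _ _ _ (fun j hj => ?_) (fun j hj => ?_)
  · rcases h.2.1 hj with rfl | hj
    · rfl
    · have : j = 1 := hj
      subst this
      rfl
  · have : j = 0 := h.2.2 hj
    subst this
    rfl

theorem Sat_comp {M : Model} {ψ : Fm} (h : Small ψ) (v : ℕ → M.Num) (V : ℕ → Set M.Num) :
    Sat M v V (fill ψ compTmp) ↔ ∀ X ∈ M.sets, ∀ c, ∃ Y ∈ M.sets, ∀ a,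
      a ∈ Y ↔ Sat M (as2 a c) (fun _ => X) ψ := by
  have e : fill ψ compTmp = .allS 0 (.all 1 (.exS 1 (.all 0 (.iff (.mem (.var 0) 1) ψ)))) := rfl
  rw [e]
  simp only [Sat, Sat_exS, Sat_iff, Tm.val, update_self]
  refine forall_congr' fun X => forall_congr' fun _ => forall_congr' fun c =>
    exists_congr fun Y => and_congr_right fun _ => forall_congr' fun a => ?_
  rw [Sat_small h]
  simp

theorem Sat_ac {M : Model} {ψ : Fm} (h : Small ψ) (v : ℕ → M.Num) (V : ℕ → Set M.Num) :
    Sat M v V (fill ψ acTmp) ↔ ∀ P ∈ M.sets, ∀ c,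
      (∀ a, ∃ X ∈ M.sets, ∃ J ∈ M.sets, IsJoin M P X J ∧ Sat M (as2 a c) (fun _ => J) ψ) →
      ∃ Y ∈ M.sets, ∀ a, ∃ X ∈ M.sets, (∀ m, m ∈ X ↔ M.pr a m ∈ Y) ∧
        ∃ J ∈ M.sets, IsJoin M P X J ∧ Sat M (as2 a c) (fun _ => J) ψ := by
  have e : fill ψ acTmp = .allS 1 (.all 1 (.imp (.all 0 (.exS 2 (.exS 0 (.and (joinF 1 2 0) ψ))))
    (.exS 3 (.all 0 (.exS 2 (.and
      (.all 4 (.iff (.mem (.var 4) 2) (.mem (prT (.var 0) (.var 4)) 3)))
      (.exS 0 (.and (joinF 1 2 0) ψ)))))))) := rfl
  rw [e]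
  have e1 : ∀ (P J X : Set M.Num) (c a : M.Num) (W : ℕ → Set M.Num),
      Sat M (update (update v 1 c) 0 a) (update W 0 J) ψ ↔ Sat M (as2 a c) (fun _ => J) ψ := by
    intro P J X c a W
    rw [Sat_small h]
    simp
  simp only [Sat, Sat_exS, Sat_iff, Sat_imp, Tm.val, val_prT, update_self, Sat_joinF]
  refine forall_congr' fun P => forall_congr' fun _ => forall_congr' fun c => imp_congr ?_ ?_
  · refine forall_congr' fun a => exists_congr fun X => and_congr_right fun _ =>
      exists_congr fun J => and_congr_right fun _ => ?_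
    rw [e1 P J X]
    simp
  · refine exists_congr fun Y => and_congr_right fun _ => forall_congr' fun a =>
      exists_congr fun X => and_congr_right fun _ => ?_
    refine and_congr ?_ (exists_congr fun J => and_congr_right fun _ => ?_)
    · simp
    · rw [e1 P J X]
      simp

theorem Model.holds_iff {M : Model} {φ : Fm} :
    M.Holds φ ↔ ∀ (v : ℕ → M.Num) (V : ℕ → Set M.Num), (∀ j, V j ∈ M.sets) → Sat M v V φ := Iff.rfl

/-- Models of the base theory are good. -/
theorem good_of_base {M : Model} (h : ∀ φ ∈ baseT, M.Holds φ) : Good M := by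
  obtain ⟨V, hV⟩ := M.exists_setAsg
  have hb : ∀ φ ∈ baseL, Sat M (fun _ => M.zero) V φ := fun φ hφ => h φ (Or.inl hφ) _ V hV
  refine ⟨?_, ?_, ?_, ?_, ?_, ?_⟩
  · intro a b c d he
    have h1 := hb _ (by simp [baseL] : (.all 1 (.all 0 (.all 2 (.all 3
      (.imp (.eq (prT (.var 0) (.var 1)) (prT (.var 2) (.var 3)))
      (.and (.eq (.var 0) (.var 2)) (.eq (.var 1) (.var 3))))))) : Fm) ∈ baseL)
    simp only [Sat, Sat_imp, val_prT, Tm.val] at h1
    have h2 := h1 b a c d
    simp at h2
    exact h2 he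
  · intro n hn
    have h1 := hb _ (by simp [baseL] :
      (.all 1 (.all 0 (.neg (.eq (.add (.var 0) .one) .zero))) : Fm) ∈ baseL)
    simp only [Sat, Tm.val, update_self] at h1
    exact h1 n n hn
  · intro m n hn
    have h1 := hb _ (by simp [baseL] : (.all 1 (.all 0
      (.imp (.eq (.add (.var 0) .one) (.add (.var 1) .one)) (.eq (.var 0) (.var 1)))) : Fm) ∈ baseL)
    simp only [Sat, Sat_imp, Tm.val, update_self] at h1
    have h2 := h1 n m
    simp at h2
    exact h2 hn
  · intro X hX Y hY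
    have h1 := hb _ (by simp [baseL] : (.allS 0 (.allS 1 (.exS 2 (joinF 0 1 2))) : Fm) ∈ baseL)
    simp only [Sat, Sat_exS, Sat_joinF] at h1
    obtain ⟨J, hJ, h2⟩ := h1 X hX Y hY
    simp at h2
    exact ⟨J, hJ, h2⟩
  · intro φ hφ X hX c
    have h1 := h (fill φ compTmp) (Or.inr (Or.inl ⟨φ, hφ, rfl⟩)) (fun _ => M.zero) V hV
    rw [Sat_comp hφ] at h1
    exact h1 X hX c
  · intro θ hθ P hP c
    have h1 := h (fill θ acTmp) (Or.inr (Or.inr ⟨θ, hθ, rfl⟩)) (fun _ => M.zero) V hV
    rw [Sat_ac hθ] at h1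
    exact h1 P hP c

/-- The base theory proves all axioms of `Sigma^1_1-AC_0`. -/
theorem base_proves {φ : Fm} (h : SigmaAC0 φ) : Proves baseT φ := by
  intro M hM
  have hG := good_of_base hM
  have hcl : ∀ ψ : Fm, (.all 1 (.all 0 ψ) : Fm) ∈ baseL → M.Holds ψ := by
    intro ψ hψ v V hV
    have h1 := hM _ (Or.inl hψ) v V hV (v 1) (v 0)
    have e : update (update v 1 (v 1)) 0 (v 0) = v := by simp
    rwa [e] at h1
  cases h with
  | aca _ h =>
    cases h with
    | succ_ne_zero => exact hcl _ (by simp [baseL])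
    | succ_inj => exact hcl _ (by simp [baseL])
    | add_zero => exact hcl _ (by simp [baseL])
    | add_succ => exact hcl _ (by simp [baseL])
    | mul_zero => exact hcl _ (by simp [baseL])
    | mul_succ => exact hcl _ (by simp [baseL])
    | not_lt_zero => exact hcl _ (by simp [baseL])
    | lt_succ => exact hcl _ (by simp [baseL])
    | induction =>
      intro v V hV
      have h1 := hM (.allS 0 (.imp (.and (.mem .zero 0)
        (.all 0 (.imp (.mem (.var 0) 0) (.mem (.add (.var 0) .one) 0))))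
        (.all 0 (.mem (.var 0) 0)))) (Or.inl (by simp [baseL])) v V hV (V 0) (hV 0)
      have e : update V 0 (V 0) = V := by simp
      rwa [e] at h1
    | comprehension φ i j hφ hj => exact hG.holds_comprehension hφ hj
  | choice η n m X Y hη hY hYX hmn => exact hG.holds_choice hη hY hYX hmn

/-- Choice in the standard model. -/
theorem std_base {φ : Fm} (h : φ ∈ baseT) : std.Holds φ := by
  intro v V _
  rcases h with h | ⟨ψ, hψ, rfl⟩ | ⟨ψ, hψ, rfl⟩
  · simp only [baseL, List.mem_cons, List.not_mem_nil, or_false] at h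
    rcases h with rfl | rfl | rfl | rfl | rfl | rfl | rfl | rfl | rfl | rfl | rfl
    · intro (b : ℕ) (a : ℕ) h1
      exact Nat.succ_ne_zero a h1
    · intro (b : ℕ) (a : ℕ)
      rw [Sat_imp]
      intro h1
      have h2 : a + 1 = b + 1 := h1
      show a = b
      omega
    · intro (b : ℕ) (a : ℕ)
      rfl
    · intro (b : ℕ) (a : ℕ)
      show a + (b + 1) = a + b + 1
      rfl
    · intro (b : ℕ) (a : ℕ)
      rfl
    · intro (b : ℕ) (a : ℕ)
      show a * (b + 1) = a * b + a
      rfl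
    · intro (b : ℕ) (a : ℕ) h1
      exact Nat.not_lt_zero a h1
    · intro (b : ℕ) (a : ℕ)
      rw [Sat_iff, Sat_or]
      show a < b + 1 ↔ (a < b ∨ a = b)
      omega
    · intro A _
      rw [Sat_imp]
      rintro ⟨h1, h2⟩ (n : ℕ)
      show n ∈ A
      induction n with
      | zero => exact h1
      | succ n ih =>
        have h3 := h2 n
        rw [Sat_imp] at h3
        exact h3 ih
    · intro (b : ℕ) (a : ℕ) (c : ℕ) (d : ℕ)
      rw [Sat_imp]
      intro h1
      have h2 : pr a b = pr c d := h1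
      exact pr_inj h2
    · intro A _ B _
      rw [Sat_exS]
      refine ⟨{n : ℕ | (∃ a ∈ A, n = pr 0 a) ∨ ∃ a ∈ B, n = pr 1 a}, trivial, ?_⟩
      rw [Sat_joinF]
      intro (a : ℕ)
      have e0 : std.pr (std.num 0) a = pr 0 a := rfl
      have e1 : std.pr (std.num 1) a = pr 1 a := rfl
      rw [e0, e1]
      simp only [update_self]
      constructor
      · constructor
        · rintro (⟨b, hb, h1⟩ | ⟨b, hb, h1⟩)
          · rw [(pr_inj h1).2]; exact hb
          · exact absurd (pr_inj h1).1 (by norm_num)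
        · intro h1
          exact Or.inl ⟨a, h1, rfl⟩
      · constructor
        · rintro (⟨b, hb, h1⟩ | ⟨b, hb, h1⟩)
          · exact absurd (pr_inj h1).1 (by norm_num)
          · rw [(pr_inj h1).2]; exact hb
        · intro h1
          exact Or.inr ⟨a, h1, rfl⟩
  · rw [Sat_comp hψ]
    intro X _ c
    exact ⟨{a | Sat std (as2 a c) (fun _ => X) ψ}, trivial, fun a => Iff.rfl⟩
  · rw [Sat_ac hψ]
    intro P _ c h1
    choose X _ J hJ h2 h3 using h1
    refine ⟨{n : ℕ | ∃ a : ℕ, ∃ m ∈ X a, n = pr a m}, trivial, fun a => ⟨X a, trivial, ?_, J a,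
      trivial, h2 a, h3 a⟩⟩
    intro (m : ℕ)
    have e1 : std.pr a m = pr a m := rfl
    rw [e1]
    constructor
    · intro h4
      exact ⟨a, m, h4, rfl⟩
    · rintro ⟨b, k, h4, h5⟩
      obtain ⟨rfl, rfl⟩ := pr_inj h5
      exact h4

end Pool.Agent.Y561.RF
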