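import Pool.Agent.Y561.RF.Defs

/-!
Comprehension and choice for arithmetical formulas with arbitrarily many parameters follow from the
instances with one number parameter and one set parameter.
-/

set_option autoImplicit false

namespace Pool.Agent.Y561.RF

open Pool.Agent.H986R3.SOA Function

/-- Shift of the number variables of a term. -/
def tsh : Tm → Tm
  | .var i => .var (i + 2)
  | .zero => .zero
  | .one => .one
  | .add s t => .add (tsh s) (tsh t)
  | .mul s t => .mul (tsh s) (tsh t)

@[simp] theorem val_tsh (M : Model) (v : ℕ → M.Num) (t : Tm) :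
    (tsh t).val M v = t.val M (fun i => v (i + 2)) := by
  induction t with
  | var i => rfl
  | zero => rfl
  | one => rfl
  | add s t hs ht => simp only [tsh, Tm.val, hs, ht]
  | mul s t hs ht => simp only [tsh, Tm.val, hs, ht]

theorem fv_tsh (t : Tm) : ∀ x ∈ (tsh t).fv, 2 ≤ x ∧ x - 2 ∈ t.fv := by
  induction t with
  | var i =>
    intro x hx
    have : x = i + 2 := hx
    subst this
    exact ⟨by omega, by simp [Tm.fv]⟩
  | zero => intro x hx; exact hx.elim
  | one => intro x hx; exact hx.elim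
  | add s t hs ht =>
    rintro x (hx | hx)
    · exact ⟨(hs x hx).1, Or.inl (hs x hx).2⟩
    · exact ⟨(ht x hx).1, Or.inr (ht x hx).2⟩
  | mul s t hs ht =>
    rintro x (hx | hx)
    · exact ⟨(hs x hx).1, Or.inl (hs x hx).2⟩
    · exact ⟨(ht x hx).1, Or.inr (ht x hx).2⟩

/-- Shift of the number variables by two; membership in the set variable `q` is replaced by
membership of `g q t` in the set variable `0`. -/
def tr' (g : ℕ → Tm → Tm) : Fm → Fm
  | .eq s t => .eq (tsh s) (tsh t)
  | .lt s t => .lt (tsh s) (tsh t)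
  | .mem t q => .mem (g q (tsh t)) 0
  | .neg φ => .neg (tr' g φ)
  | .and φ ψ => .and (tr' g φ) (tr' g ψ)
  | .all i φ => .all (i + 2) (tr' g φ)
  | .allS _ φ => tr' g φ

theorem tr'_arith (g : ℕ → Tm → Tm) : ∀ φ : Fm, (tr' g φ).Arithmetical
  | .eq _ _ => trivial
  | .lt _ _ => trivial
  | .mem _ _ => trivial
  | .neg φ => tr'_arith g φ
  | .and φ ψ => ⟨tr'_arith g φ, tr'_arith g ψ⟩
  | .all _ φ => tr'_arith g φ
  | .allS _ φ => tr'_arith g φ

theorem tr'_fvS (g : ℕ → Tm → Tm) : ∀ φ : Fm, (tr' g φ).fvS ⊆ {0}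
  | .eq _ _ => Set.empty_subset _
  | .lt _ _ => Set.empty_subset _
  | .mem _ _ => subset_rfl
  | .neg φ => tr'_fvS g φ
  | .and φ ψ => Set.union_subset (tr'_fvS g φ) (tr'_fvS g ψ)
  | .all _ φ => tr'_fvS g φ
  | .allS _ φ => tr'_fvS g φ

theorem tr'_fvN {g : ℕ → Tm → Tm} (hg : ∀ q t, (g q t).fv ⊆ t.fv) (φ : Fm) :
    ∀ x ∈ (tr' g φ).fvN, 2 ≤ x ∧ x < φ.bd + 2 := by
  have hbd : ∀ t : Tm, ∀ x ∈ t.fv, x < t.bd := by
    intro t
    induction t with
    | var i => intro x hx; have : x = i := hx; subst this; simp [Tm.bd]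
    | zero => intro x hx; exact hx.elim
    | one => intro x hx; exact hx.elim
    | add s t hs ht =>
      rintro x (hx | hx)
      · exact lt_of_lt_of_le (hs x hx) (le_max_left _ _)
      · exact lt_of_lt_of_le (ht x hx) (le_max_right _ _)
    | mul s t hs ht =>
      rintro x (hx | hx)
      · exact lt_of_lt_of_le (hs x hx) (le_max_left _ _)
      · exact lt_of_lt_of_le (ht x hx) (le_max_right _ _)
  have hsh : ∀ t : Tm, ∀ x ∈ (tsh t).fv, 2 ≤ x ∧ x < t.bd + 2 := by
    intro t x hx
    have h1 := fv_tsh t x hx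
    have h2 := hbd t _ h1.2
    exact ⟨h1.1, by omega⟩
  induction φ with
  | eq s t =>
    rintro x (hx | hx)
    · have := hsh s x hx
      exact ⟨this.1, lt_of_lt_of_le this.2 (Nat.add_le_add_right (le_max_left _ _) 2)⟩
    · have := hsh t x hx
      exact ⟨this.1, lt_of_lt_of_le this.2 (Nat.add_le_add_right (le_max_right _ _) 2)⟩
  | lt s t =>
    rintro x (hx | hx)
    · have := hsh s x hx
      exact ⟨this.1, lt_of_lt_of_le this.2 (Nat.add_le_add_right (le_max_left _ _) 2)⟩
    · have := hsh t x hx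
      exact ⟨this.1, lt_of_lt_of_le this.2 (Nat.add_le_add_right (le_max_right _ _) 2)⟩
  | mem t q =>
    intro x hx
    exact hsh t x (hg _ _ hx)
  | neg φ ih => exact ih
  | and φ ψ ih1 ih2 =>
    rintro x (hx | hx)
    · have := ih1 x hx
      exact ⟨this.1, lt_of_lt_of_le this.2 (Nat.add_le_add_right (le_max_left _ _) 2)⟩
    · have := ih2 x hx
      exact ⟨this.1, lt_of_lt_of_le this.2 (Nat.add_le_add_right (le_max_right _ _) 2)⟩
  | all i φ ih =>
    rintro x ⟨hx, _⟩
    have := ih x hx
    exact ⟨this.1, lt_of_lt_of_le this.2 (Nat.add_le_add_right (le_max_right _ _) 2)⟩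
  | allS i φ ih => exact ih

theorem Sat_tr' (M : Model) {g : ℕ → Tm → Tm} {γ : ℕ → M.Num → M.Num}
    (hg : ∀ q t (v : ℕ → M.Num), (g q t).val M v = γ q (t.val M v)) :
    ∀ (φ : Fm), φ.Arithmetical → ∀ (v : ℕ → M.Num) (V : ℕ → Set M.Num),
      Sat M v V (tr' g φ) ↔ Sat M (fun i => v (i + 2)) (fun q => {a | γ q a ∈ V 0}) φ
  | .eq _ _, _, _, _ => by simp only [tr', Sat, val_tsh]
  | .lt _ _, _, _, _ => by simp only [tr', Sat, val_tsh]
  | .mem t q, _, v, V => by
      simp only [tr', Sat, hg, val_tsh, Set.mem_ofPred_eq]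
  | .neg φ, h, v, V => by
      simp only [tr', Sat]
      rw [Sat_tr' M hg φ h]
  | .and φ ψ, h, v, V => by
      simp only [tr', Sat]
      rw [Sat_tr' M hg φ h.1, Sat_tr' M hg ψ h.2]
  | .all i φ, h, v, V => by
      simp only [tr', Sat]
      refine forall_congr' fun a => ?_
      rw [Sat_tr' M hg φ h]
      have : (fun k => update v (i + 2) a (k + 2)) = update (fun k => v (k + 2)) i a := by
        funext k
        by_cases hk : k = i
        · subst hk; simp
        · rw [update_of_ne hk, update_of_ne (by omega)]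
      rw [this]
  | .allS _ _, h, _, _ => h.elim

/-- `(((0, x_2), x_3), ...)` with `k` variables. -/
def tupT : ℕ → Tm
  | 0 => .zero
  | k + 1 => prT (tupT k) (.var (k + 2))

/-- The tuple in a model. -/
def tup (M : Model) (w : ℕ → M.Num) : ℕ → M.Num
  | 0 => M.zero
  | k + 1 => M.pr (tup M w k) (w k)

theorem val_tupT (M : Model) (v : ℕ → M.Num) (k : ℕ) :
    (tupT k).val M v = tup M (fun i => v (i + 2)) k := by
  induction k with
  | zero => rfl
  | succ k ih => simp only [tupT, tup, val_prT, ih, Tm.val]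

theorem tup_congr (M : Model) (w w' : ℕ → M.Num) (k : ℕ) (h : ∀ i < k, w i = w' i) :
    tup M w k = tup M w' k := by
  induction k with
  | zero => rfl
  | succ k ih =>
    simp only [tup]
    rw [ih (fun i hi => h i (by omega)), h k (by omega)]

theorem tupT_fv (k : ℕ) : ∀ x ∈ (tupT k).fv, 2 ≤ x ∧ x < k + 2 := by
  induction k with
  | zero => intro x hx; exact hx.elim
  | succ k ih =>
    intro x hx
    rw [tupT, Tm.fv_prT] at hx
    rcases hx with hx | hx
    · have := ih x hx; omega
    · have : x = k + 2 := hx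
      omega

/-- `∃ x_2 ... ∃ x_(k+1) ψ`. -/
def exs : ℕ → Fm → Fm
  | 0, ψ => ψ
  | k + 1, ψ => exs k (.ex (k + 2) ψ)

theorem exs_arith {ψ : Fm} (k : ℕ) (h : ψ.Arithmetical) : (exs k ψ).Arithmetical := by
  induction k generalizing ψ with
  | zero => exact h
  | succ k ih => exact ih (by simpa [Fm.ex, Fm.Arithmetical] using h)

theorem exs_fvS (k : ℕ) (ψ : Fm) : (exs k ψ).fvS = ψ.fvS := by
  induction k generalizing ψ with
  | zero => rfl
  | succ k ih => rw [exs, ih]; rfl

theorem exs_fvN (k : ℕ) (ψ : Fm) : ∀ x ∈ (exs k ψ).fvN, x ∈ ψ.fvN ∧ ¬ (2 ≤ x ∧ x < k + 2) := by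
  induction k generalizing ψ with
  | zero => intro x hx; exact ⟨hx, by omega⟩
  | succ k ih =>
    intro x hx
    obtain ⟨h1, h2⟩ := ih _ x hx
    have h3 : x ∈ ψ.fvN \ {k + 2} := h1
    have h4 : x ≠ k + 2 := h3.2
    exact ⟨h3.1, by omega⟩

/-- The assignment `v` with the values `2, ..., k + 1` replaced by those of `w`. -/
def ovr {A : Type} (v w : ℕ → A) (k : ℕ) : ℕ → A :=
  fun n => if 2 ≤ n ∧ n < k + 2 then w (n - 2) else v n

theorem Sat_exs (M : Model) (k : ℕ) (ψ : Fm) (v : ℕ → M.Num) (V : ℕ → Set M.Num) :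
    Sat M v V (exs k ψ) ↔ ∃ w : ℕ → M.Num, Sat M (ovr v w k) V ψ := by
  induction k generalizing ψ with
  | zero =>
    have : ∀ w : ℕ → M.Num, ovr v w 0 = v := by
      intro w
      funext n
      simp only [ovr]
      rw [if_neg (by omega)]
    constructor
    · intro h
      exact ⟨v, by rw [this]; exact h⟩
    · rintro ⟨w, h⟩
      rw [this] at h
      exact h
  | succ k ih =>
    rw [exs, ih]
    constructor
    · rintro ⟨w, h⟩
      rw [Sat_ex] at h
      obtain ⟨a, h⟩ := h
      refine ⟨update w k a, ?_⟩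
      have : ovr v (update w k a) (k + 1) = update (ovr v w k) (k + 2) a := by
        funext n
        by_cases hn : n = k + 2
        · subst hn
          simp [ovr]
        · rw [update_of_ne hn]
          simp only [ovr]
          by_cases h2 : 2 ≤ n ∧ n < k + 2
          · rw [if_pos h2, if_pos (by omega), update_of_ne (by omega)]
          · rw [if_neg h2, if_neg (by omega)]
      rw [this]
      exact h
    · rintro ⟨w, h⟩
      refine ⟨w, ?_⟩
      rw [Sat_ex]
      refine ⟨w k, ?_⟩
      have : ovr v w (k + 1) = update (ovr v w k) (k + 2) (w k) := by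
        funext n
        by_cases hn : n = k + 2
        · subst hn
          simp [ovr]
        · rw [update_of_ne hn]
          simp only [ovr]
          by_cases h2 : 2 ≤ n ∧ n < k + 2
          · rw [if_pos h2, if_pos (by omega)]
          · rw [if_neg h2, if_neg (by omega)]
      rw [← this]
      exact h

/-- The formula with number variables `0, 1` and set variable `0` that says: `φ` holds for the
assignment of the first `k` number variables coded by `x_1`, with the value `x_0` for `i`. -/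
def one (g : ℕ → Tm → Tm) (k i : ℕ) (φ : Fm) : Fm :=
  exs k (.and (.eq (.var 1) (tupT k)) (.ex (i + 2) (.and (.eq (.var (i + 2)) (.var 0)) (tr' g φ))))

theorem one_arith (g : ℕ → Tm → Tm) (k i : ℕ) (φ : Fm) : (one g k i φ).Arithmetical :=
  exs_arith k (by
    simp only [Fm.ex, Fm.Arithmetical]
    exact ⟨trivial, trivial, tr'_arith g φ⟩)

theorem one_fvS (g : ℕ → Tm → Tm) (k i : ℕ) (φ : Fm) : (one g k i φ).fvS ⊆ {0} := by
  rw [one, exs_fvS]
  intro x hx
  simp only [Fm.fvS, Fm.ex, Set.mem_union, Set.mem_empty_iff_false, false_or] at hx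
  exact tr'_fvS g φ hx

theorem one_fvN {g : ℕ → Tm → Tm} (hg : ∀ q t, (g q t).fv ⊆ t.fv) {k i : ℕ} {φ : Fm}
    (hk : φ.bd ≤ k) (hi : i < k) : (one g k i φ).fvN ⊆ {0, 1} := by
  intro x hx
  obtain ⟨h1, h2⟩ := exs_fvN _ _ x hx
  simp only [Fm.fvN, Fm.ex, Tm.fv, Set.mem_union, Set.mem_singleton_iff, Set.mem_sdiff] at h1
  simp only [Set.mem_insert_iff, Set.mem_singleton_iff]
  have h3 := tupT_fv k x
  have h4 := tr'_fvN hg φ x
  rcases h1 with (h1 | h1) | ⟨(h1 | h1) | h1, h5⟩
  · exact Or.inr h1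
  · exact absurd (h3 h1) h2
  · omega
  · exact Or.inl h1
  · have := h4 h1
    omega

/-- The pairing function of the structure is injective. -/
def PrInj (M : Model) : Prop := ∀ a b c d : M.Num, M.pr a b = M.pr c d → a = c ∧ b = d

theorem tup_inj {M : Model} (h : PrInj M) (w w' : ℕ → M.Num) (k : ℕ)
    (he : tup M w k = tup M w' k) : ∀ i < k, w i = w' i := by
  induction k with
  | zero => intro i hi; omega
  | succ k ih =>
    intro i hi
    obtain ⟨h1, h2⟩ := h _ _ _ _ he
    rcases Nat.lt_succ_iff_lt_or_eq.1 hi with h3 | h3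
    · exact ih h1 i h3
    · rw [h3]; exact h2

theorem bd_fv (φ : Fm) : ∀ x ∈ φ.fvN, x < φ.bd := by
  have hbd : ∀ t : Tm, ∀ x ∈ t.fv, x < t.bd := by
    intro t
    induction t with
    | var i => intro x hx; have : x = i := hx; subst this; simp [Tm.bd]
    | zero => intro x hx; exact hx.elim
    | one => intro x hx; exact hx.elim
    | add s t hs ht =>
      rintro x (hx | hx)
      · exact lt_of_lt_of_le (hs x hx) (le_max_left _ _)
      · exact lt_of_lt_of_le (ht x hx) (le_max_right _ _)
    | mul s t hs ht =>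
      rintro x (hx | hx)
      · exact lt_of_lt_of_le (hs x hx) (le_max_left _ _)
      · exact lt_of_lt_of_le (ht x hx) (le_max_right _ _)
  induction φ with
  | eq s t =>
    rintro x (hx | hx)
    · exact lt_of_lt_of_le (hbd _ x hx) (le_max_left _ _)
    · exact lt_of_lt_of_le (hbd _ x hx) (le_max_right _ _)
  | lt s t =>
    rintro x (hx | hx)
    · exact lt_of_lt_of_le (hbd _ x hx) (le_max_left _ _)
    · exact lt_of_lt_of_le (hbd _ x hx) (le_max_right _ _)
  | mem t q => exact fun x hx => hbd _ x hx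
  | neg φ ih => exact ih
  | and φ ψ ih1 ih2 =>
    rintro x (hx | hx)
    · exact lt_of_lt_of_le (ih1 x hx) (le_max_left _ _)
    · exact lt_of_lt_of_le (ih2 x hx) (le_max_right _ _)
  | all i φ ih =>
    rintro x ⟨hx, _⟩
    exact lt_of_lt_of_le (ih x hx) (le_max_right _ _)
  | allS i φ ih => exact ih

/-- The meaning of `one`. -/
theorem Sat_one {M : Model} (hM : PrInj M) {g : ℕ → Tm → Tm} {γ : ℕ → M.Num → M.Num}
    (hg : ∀ q t (v : ℕ → M.Num), (g q t).val M v = γ q (t.val M v)) {φ : Fm}
    (hφ : φ.Arithmetical) {k i : ℕ} (hk : φ.bd ≤ k) (u : ℕ → M.Num)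
    (v : ℕ → M.Num) (V : ℕ → Set M.Num) (hv : v 1 = tup M u k) :
    Sat M v V (one g k i φ) ↔ Sat M (update u i (v 0)) (fun q => {a | γ q a ∈ V 0}) φ := by
  have h2 : ∀ w : ℕ → M.Num, Sat M (ovr v w k) V
      (.and (.eq (.var 1) (tupT k)) (.ex (i + 2) (.and (.eq (.var (i + 2)) (.var 0)) (tr' g φ)))) ↔
      tup M u k = tup M w k ∧
        Sat M (update w i (v 0)) (fun q => {a | γ q a ∈ V 0}) φ := by
    intro w
    have e0 : ovr v w k 0 = v 0 := by simp [ovr]
    have e1 : ovr v w k 1 = v 1 := by simp [ovr]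
    have e2 : tup M (fun i => ovr v w k (i + 2)) k = tup M w k :=
      tup_congr M _ _ k (fun i hi => by
        simp only [ovr]
        rw [if_pos (by omega)]
        rfl)
    simp only [Sat, Sat_ex, Tm.val, val_tupT, e1, hv, e2]
    refine and_congr_right fun _ => ?_
    constructor
    · rintro ⟨a, h3, h4⟩
      rw [update_self, update_of_ne (by omega : (0 : ℕ) ≠ i + 2), e0] at h3
      subst h3
      rw [Sat_tr' M hg φ hφ] at h4
      refine (Sat_congr M φ _ _ _ _ ?_ (fun _ _ => rfl)).1 h4
      intro j hj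
      have hj' := bd_fv φ j hj
      by_cases hji : j = i
      · subst hji; simp
      · rw [update_of_ne hji, update_of_ne (by omega)]
        simp only [ovr]
        rw [if_pos (by omega)]
        rfl
    · intro h4
      refine ⟨v 0, ?_, ?_⟩
      · rw [update_self, update_of_ne (by omega : (0 : ℕ) ≠ i + 2), e0]
      · rw [Sat_tr' M hg φ hφ]
        refine (Sat_congr M φ _ _ _ _ ?_ (fun _ _ => rfl)).2 h4
        intro j hj
        have hj' := bd_fv φ j hj
        by_cases hji : j = i
        · subst hji; simp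
        · rw [update_of_ne hji, update_of_ne (by omega)]
          simp only [ovr]
          rw [if_pos (by omega)]
          rfl
  rw [one, Sat_exs]
  constructor
  · rintro ⟨w, h⟩
    obtain ⟨h3, h4⟩ := (h2 w).1 h
    have h5 := tup_inj hM u w k h3
    refine (Sat_congr M φ _ _ _ _ ?_ (fun _ _ => rfl)).1 h4
    intro j hj
    have hj' := bd_fv φ j hj
    by_cases hji : j = i
    · subst hji; simp
    · rw [update_of_ne hji, update_of_ne hji, h5 j (by omega)]
  · intro h
    exact ⟨u, (h2 u).2 ⟨rfl, h⟩⟩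

end Pool.Agent.Y561.RF
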