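import Pool.Agent.H986R3.SOAFinal

/-!
The axiom system `Sigma^1_1-AC_0` and `Pi^1_1` definitions of theories. The language of second-order
arithmetic, its structures, provability, `ACA_0`, the Goedel numbering and arithmetizations of the
metamathematics are those of `Pool/Agent/H986R3/SOADefs.lean`.
-/

set_option autoImplicit false

namespace Pool.Agent.Y561.RF

open Pool.Agent.H986R3.SOA

/-- The axioms of `Sigma^1_1-AC_0` (free variables are universally quantified): those of `ACA_0` and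
`∀ n ∃ X η(n, X) → ∃ Y ∀ n ∃ X (X = (Y)_n ∧ η(n, X))` for `η` in `Sigma^1_1` (or arithmetical), where
`(Y)_n = {m : (n, m) ∈ Y}`, that is `∀ n ∃ X η(n, X) → ∃ Y ∀ n η(n, (Y)_n)`. -/
inductive SigmaAC0 : Fm → Prop
  | aca (φ : Fm) : ACA0 φ → SigmaAC0 φ
  | choice (η : Fm) (n m X Y : ℕ) : η.IsSigma11 ∨ η.Arithmetical → Y ∉ η.fvS → Y ≠ X → m ≠ n →
      SigmaAC0 (.imp (.all n (.exS X η))
        (.exS Y (.all n (.exS X (.and
          (.all m (.iff (.mem (.var m) X) (.mem (prT (.var n) (.var m)) Y))) η)))))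

/-- `T` is a set of sentences that proves all axioms of `Sigma^1_1-AC_0`. -/
def ExtendsSigmaAC0 (T : Set Fm) : Prop :=
  (∀ φ ∈ T, φ.IsSentence) ∧ ∀ φ, SigmaAC0 φ → Proves T φ

/-- The `Pi^1_1` formula `τ(a)` defines (the set of Goedel numbers of the members of) `T` in the
standard model. -/
def Pi11Defines (τ : Fm) (T : Set Fm) : Prop :=
  τ.IsPi11 ∧ τ.FreeIn {0} ∧ ∀ n : ℕ, SatN n 0 0 τ ↔ ∃ φ ∈ T, φ.code = n

/-- For `τ` with free number variable `0`: the sentence `τ(n)`, that is `∀ x (x = n → τ(x))`. -/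
def instA (τ : Fm) (n : ℕ) : Fm := .all 0 (.imp (.eq (.var 0) (numeral n)) τ)

end Pool.Agent.Y561.RF
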