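import Pool.Agent.Y561.RF.Base

/-!
Formulas built from an arithmetization: the definition of the base theory, truth of reflection in
the standard model.
-/

set_option autoImplicit false

namespace Pool.Agent.Y561.RF

open Pool.Agent.H986R3.SOA Function

/-- The code of `fill ψ φ` as a function of the code of `ψ`. -/
def ctxN (y : ℕ) : Fm → ℕ
  | .eq s t => (Fm.eq s t).code
  | .lt s t => (Fm.lt s t).code
  | .mem t q => if q = 999 then y else (Fm.mem t q).code
  | .neg φ => pr 3 (ctxN y φ)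
  | .and φ χ => pr 4 (pr (ctxN y φ) (ctxN y χ))
  | .all i φ => pr 5 (pr i (ctxN y φ))
  | .allS i φ => pr 6 (pr i (ctxN y φ))

theorem ctxN_fill (ψ φ : Fm) : ctxN ψ.code φ = (fill ψ φ).code := by
  induction φ with
  | eq s t => rfl
  | lt s t => rfl
  | mem t q => simp only [ctxN, fill]; split_ifs <;> rfl
  | neg φ ih => simp only [ctxN, fill, Fm.code, ih]
  | and φ χ ih1 ih2 => simp only [ctxN, fill, Fm.code, ih1, ih2]
  | all i φ ih => simp only [ctxN, fill, Fm.code, ih]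
  | allS i φ ih => simp only [ctxN, fill, Fm.code, ih]

theorem std_prT {v : ℕ → ℕ} {s t : Tm} {a b : ℕ} (h1 : s.val std v = a) (h2 : t.val std v = b) :
    @Eq ℕ ((prT s t).val std v) (pr a b) := by
  rw [val_prT, h1, h2]
  rfl

theorem std_nl (v : ℕ → ℕ) (n : ℕ) : (numeral n).val std v = (n : ℕ) := by
  rw [val_numeral]
  exact std_num n

theorem ctx_ctxN (t : Tm) (y : ℕ) (v : ℕ → ℕ) (hy : t.val std v = y) (φ : Fm) :
    @Eq ℕ ((ctx t φ).val std v) (ctxN y φ) := by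
  induction φ with
  | eq s t => exact std_nl v _
  | lt s t => exact std_nl v _
  | mem t q =>
    simp only [ctx, ctxN]
    split_ifs
    · exact hy
    · exact std_nl v _
  | neg φ ih => exact std_prT (std_nl v 3) ih
  | and φ χ ih1 ih2 => exact std_prT (std_nl v 4) (std_prT ih1 ih2)
  | all i φ ih => exact std_prT (std_nl v 5) (std_prT (std_nl v i) ih)
  | allS i φ ih => exact std_prT (std_nl v 6) (std_prT (std_nl v i) ih)

theorem code_allS_inv {φ : Fm} {i z : ℕ} (h : φ.code = pr 6 (pr i z)) :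
    ∃ ψ : Fm, φ = .allS i ψ ∧ ψ.code = z := by
  cases φ with
  | allS j ψ =>
    have h2 := pr_inj (pr_inj h).2
    exact ⟨ψ, by rw [h2.1], h2.2⟩
  | _ => simp only [Fm.code] at h; have h' := pr_inj h; simp_all

theorem code_all_inv {φ : Fm} {i z : ℕ} (h : φ.code = pr 5 (pr i z)) :
    ∃ ψ : Fm, φ = .all i ψ ∧ ψ.code = z := by
  cases φ with
  | all j ψ =>
    have h2 := pr_inj (pr_inj h).2
    exact ⟨ψ, by rw [h2.1], h2.2⟩
  | _ => simp only [Fm.code] at h; have h' := pr_inj h; simp_all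

theorem small_iff (ψ : Fm) : Small ψ ↔ (fill ψ clTmp).IsPi11Sentence := by
  have e : fill ψ clTmp = .allS 0 (.all 0 (.all 1 ψ)) := rfl
  rw [e]
  constructor
  · rintro ⟨h1, h2, h3⟩
    refine ⟨⟨0, _, rfl, h1⟩, ?_, ?_⟩
    · simp only [Fm.fvN]
      ext x
      simp only [Set.mem_sdiff, Set.mem_singleton_iff, Set.mem_empty_iff_false, iff_false]
      rintro ⟨⟨h4, h5⟩, h6⟩
      rcases h2 h4 with h7 | h7
      · exact h6 h7
      · exact h5 h7
    · simp only [Fm.fvS]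
      ext x
      simp only [Set.mem_sdiff, Set.mem_singleton_iff, Set.mem_empty_iff_false, iff_false]
      rintro ⟨h4, h5⟩
      exact h5 (h3 h4)
  · rintro ⟨⟨i, θ, h1, h2⟩, h3, h4⟩
    injection h1 with h5 h6
    subst h6
    refine ⟨h2, fun x hx => ?_, fun x hx => ?_⟩
    · by_contra h7
      simp only [Set.mem_insert_iff, Set.mem_singleton_iff, not_or] at h7
      have h8 : x ∈ (Fm.allS 0 (.all 0 (.all 1 ψ))).fvN := by
        simp only [Fm.fvN, Set.mem_sdiff, Set.mem_singleton_iff]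
        exact ⟨⟨hx, h7.2⟩, h7.1⟩
      rw [h3] at h8
      exact h8
    · by_contra h7
      have h8 : x ∈ (Fm.allS 0 (.all 0 (.all 1 ψ))).fvS := by
        simp only [Fm.fvS, Set.mem_sdiff]
        exact ⟨hx, h7⟩
      rw [h4] at h8
      exact h8

theorem sentence_small {ψ : Fm} (h : Small ψ) :
    (fill ψ compTmp).IsSentence ∧ (fill ψ acTmp).IsSentence := by
  have hN : ∀ x, x ∈ ψ.fvN → x = 0 ∨ x = 1 := fun x hx => h.2.1 hx
  have hS : ∀ x, x ∈ ψ.fvS → x = 0 := fun x hx => h.2.2 hx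
  refine ⟨⟨?_, ?_⟩, ?_, ?_⟩
  · have e : fill ψ compTmp = .allS 0 (.all 1 (.exS 1 (.all 0 (.iff (.mem (.var 0) 1) ψ)))) := rfl
    rw [e]
    ext x
    simp only [Fm.fvN, Fm.exS, Fm.iff, Fm.imp, Tm.fv, Set.mem_sdiff, Set.mem_union,
      Set.mem_singleton_iff, Set.mem_empty_iff_false, iff_false]
    have := hN x
    tauto
  · have e : fill ψ compTmp = .allS 0 (.all 1 (.exS 1 (.all 0 (.iff (.mem (.var 0) 1) ψ)))) := rfl
    rw [e]
    ext x
    simp only [Fm.fvS, Fm.exS, Fm.iff, Fm.imp, Set.mem_sdiff, Set.mem_union,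
      Set.mem_singleton_iff, Set.mem_empty_iff_false, iff_false]
    have := hS x
    tauto
  · have e : fill ψ acTmp = .allS 1 (.all 1 (.imp (.all 0 (.exS 2 (.exS 0 (.and (joinF 1 2 0) ψ))))
      (.exS 3 (.all 0 (.exS 2 (.and
        (.all 4 (.iff (.mem (.var 4) 2) (.mem (prT (.var 0) (.var 4)) 3)))
        (.exS 0 (.and (joinF 1 2 0) ψ)))))))) := rfl
    rw [e]
    ext x
    simp only [Fm.fvN, Fm.exS, Fm.iff, Fm.imp, joinF, Tm.fv, Tm.fv_prT, numeral_fv, Set.mem_sdiff,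
      Set.mem_union, Set.mem_singleton_iff, Set.mem_empty_iff_false, iff_false]
    have := hN x
    tauto
  · have e : fill ψ acTmp = .allS 1 (.all 1 (.imp (.all 0 (.exS 2 (.exS 0 (.and (joinF 1 2 0) ψ))))
      (.exS 3 (.all 0 (.exS 2 (.and
        (.all 4 (.iff (.mem (.var 4) 2) (.mem (prT (.var 0) (.var 4)) 3)))
        (.exS 0 (.and (joinF 1 2 0) ψ)))))))) := rfl
    rw [e]
    ext x
    simp only [Fm.fvS, Fm.exS, Fm.iff, Fm.imp, joinF, Set.mem_sdiff,
      Set.mem_union, Set.mem_singleton_iff, Set.mem_empty_iff_false, iff_false]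
    have := hS x
    tauto

theorem baseT_sentence {φ : Fm} (h : φ ∈ baseT) : φ.IsSentence := by
  rcases h with h | ⟨ψ, hψ, rfl⟩ | ⟨ψ, hψ, rfl⟩
  · simp only [baseL, List.mem_cons, List.not_mem_nil, or_false] at h
    rcases h with rfl | rfl | rfl | rfl | rfl | rfl | rfl | rfl | rfl | rfl | rfl <;>
    · refine ⟨?_, ?_⟩ <;>
      · ext x
        simp only [Fm.fvN, Fm.fvS, Fm.exS, Fm.iff, Fm.imp, Fm.or, joinF, Tm.fv, Tm.fv_prT,
          numeral_fv, Set.mem_sdiff,
          Set.mem_union, Set.mem_singleton_iff, Set.mem_empty_iff_false, iff_false]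
        try tauto
  · exact (sentence_small hψ).1
  · exact (sentence_small hψ).2

section

variable (𝒜 : Arithmetization)

/-- `t` is the code of a `Pi^1_1` sentence. -/
def isPiAt (t : Tm) : Fm := .all 2 (.imp (.eq (.var 2) t) 𝒜.isPi)

/-- `x_0` is the code of a member of the list. -/
def listF : List Fm → Fm
  | [] => .neg (.eq .zero .zero)
  | φ :: L => .or (.eq (.var 0) (numeral φ.code)) (listF L)

/-- `x_0` is the code of a member of the base theory. -/
def baseF : Fm :=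
  .or (listF baseL) (.ex 5 (.and (isPiAt 𝒜 (ctx (.var 5) clTmp))
    (.or (.eq (.var 0) (ctx (.var 5) compTmp)) (.eq (.var 0) (ctx (.var 5) acTmp)))))

theorem Sat_listF (v : ℕ → ℕ) (V : ℕ → Set ℕ) (L : List Fm) :
    Sat std v V (listF L) ↔ ∃ φ ∈ L, φ.code = v 0 := by
  induction L with
  | nil => simp [listF, Sat]
  | cons φ L ih =>
    rw [listF, Sat_or, ih]
    simp only [List.exists_mem_cons_iff]
    refine or_congr_left ?_
    have : Sat std v V (.eq (.var 0) (numeral φ.code)) ↔ v 0 = (numeral φ.code).val std v := Iff.rfl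
    rw [this, std_nl]
    exact eq_comm

theorem listF_arith (L : List Fm) : (listF L).Arithmetical := by
  induction L with
  | nil => trivial
  | cons φ L ih => exact ⟨trivial, ih⟩

theorem listF_fvN (L : List Fm) : (listF L).fvN ⊆ {0} := by
  induction L with
  | nil => intro x hx; simp [listF, Fm.fvN, Tm.fv] at hx
  | cons φ L ih =>
    intro x hx
    simp only [listF, Fm.or, Fm.fvN, Tm.fv, numeral_fv, Set.mem_union, Set.mem_singleton_iff,
      Set.mem_empty_iff_false, or_false] at hx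
    rcases hx with hx | hx
    · exact hx
    · exact ih hx

theorem listF_fvS (L : List Fm) : (listF L).fvS = ∅ := by
  induction L with
  | nil => simp [listF, Fm.fvS]
  | cons φ L ih => simp [listF, Fm.or, Fm.fvS, ih]

theorem baseF_arith : (baseF 𝒜).Arithmetical :=
  ⟨listF_arith _, ⟨⟨trivial, 𝒜.isPi_arith⟩, trivial, trivial⟩⟩

theorem baseF_free : (baseF 𝒜).FreeIn {0} := by
  constructor
  · intro x hx
    simp only [baseF, isPiAt, Fm.or, Fm.ex, Fm.imp, Fm.fvN, Tm.fv, Set.mem_union, Set.mem_sdiff,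
      Set.mem_singleton_iff] at hx
    have h1 : x ∈ (listF baseL).fvN → x ∈ ({0} : Set ℕ) := fun h => listF_fvN _ h
    have h2 : ∀ φ, x ∈ (ctx (.var 5) φ).fv → x ∈ ({5} : Set ℕ) := fun φ h => ctx_fv _ _ h
    have h3 : x ∈ 𝒜.isPi.fvN → x ∈ ({2} : Set ℕ) := fun h => 𝒜.isPi_free.1 h
    have h4 := h2 clTmp
    have h5 := h2 compTmp
    have h6 := h2 acTmp
    simp only [Set.mem_singleton_iff] at h1 h3 h4 h5 h6 ⊢
    tauto
  · ext x
    simp only [baseF, isPiAt, Fm.or, Fm.ex, Fm.imp, Fm.fvS, listF_fvS, 𝒜.isPi_free.2,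
      Set.mem_union, Set.mem_empty_iff_false]
    tauto

theorem std_baseF (v : ℕ → ℕ) (V : ℕ → Set ℕ) :
    Sat std v V (baseF 𝒜) ↔ ∃ φ ∈ baseT, φ.code = v 0 := by
  have hpi : ∀ (y : ℕ), Sat std (update v 5 y) V (isPiAt 𝒜 (ctx (.var 5) clTmp)) ↔
      ∃ ψ : Fm, Small ψ ∧ ψ.code = y := by
    intro y
    have e1 : ctxN y clTmp = pr 6 (pr 0 (pr 5 (pr 0 (pr 5 (pr 1 y))))) := rfl
    have h1 : Sat std (update v 5 y) V (isPiAt 𝒜 (ctx (.var 5) clTmp)) ↔
        SatN 0 0 (ctxN y clTmp) 𝒜.isPi := by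
      have h2 : ∀ a : ℕ, (ctx (.var 5) clTmp).val std (update (update v 5 y) 2 a) =
          ctxN y clTmp := fun a => ctx_ctxN _ y _ (by simp [Tm.val]) _
      have h3 : ∀ a : ℕ, Sat std (update (update v 5 y) 2 a) V 𝒜.isPi ↔ SatN 0 0 a 𝒜.isPi := by
        intro a
        refine Sat_free_asg std 𝒜.isPi_free _ _ _ _ (fun j hj => ?_)
        have : j = 2 := hj
        subst this
        simp [asg]
      constructor
      · intro h4
        have h5 := h4 (ctxN y clTmp)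
        rw [Sat_imp, h3] at h5
        refine h5 ?_
        show update (update v 5 y) 2 (ctxN y clTmp) 2 = _
        rw [h2, update_self]
      · intro h4 a
        rw [Sat_imp, h3]
        intro h5
        have h6 : a = ctxN y clTmp := by
          have h7 : update (update v 5 y) 2 a 2 = _ := h5
          rw [h2, update_self] at h7
          exact h7
        rw [h6]
        exact h4
    rw [h1, 𝒜.isPi_std]
    constructor
    · rintro ⟨φ, h2, h3⟩
      rw [e1] at h3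
      obtain ⟨φ1, rfl, h4⟩ := code_allS_inv h3
      obtain ⟨φ2, rfl, h5⟩ := code_all_inv h4
      obtain ⟨φ3, rfl, h6⟩ := code_all_inv h5
      exact ⟨φ3, (small_iff φ3).2 h2, h6⟩
    · rintro ⟨ψ, h2, rfl⟩
      exact ⟨fill ψ clTmp, (small_iff ψ).1 h2, (ctxN_fill ψ clTmp).symm⟩
  have heq : ∀ (y : ℕ) (φ : Fm), Sat std (update v 5 y) V (.eq (.var 0) (ctx (.var 5) φ)) ↔
      ctxN y φ = v 0 := by
    intro y φ
    have h1 : (ctx (.var 5) φ).val std (update v 5 y) = ctxN y φ :=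
      ctx_ctxN _ y _ (by simp [Tm.val]) _
    have h2 : Sat std (update v 5 y) V (.eq (.var 0) (ctx (.var 5) φ)) ↔
      update v 5 y 0 = (ctx (.var 5) φ).val std (update v 5 y) := Iff.rfl
    rw [h2, h1, update_of_ne (by norm_num)]
    exact eq_comm
  rw [baseF, Sat_or, Sat_listF, Sat_ex]
  constructor
  · rintro (⟨φ, h1, h2⟩ | ⟨y, h1, h2⟩)
    · exact ⟨φ, Or.inl h1, h2⟩
    · obtain ⟨ψ, h3, rfl⟩ := (hpi y).1 h1
      rw [Sat_or, heq, heq, ctxN_fill, ctxN_fill] at h2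
      rcases h2 with h2 | h2
      · exact ⟨_, Or.inr (Or.inl ⟨ψ, h3, rfl⟩), h2⟩
      · exact ⟨_, Or.inr (Or.inr ⟨ψ, h3, rfl⟩), h2⟩
  · rintro ⟨φ, h1 | ⟨ψ, h1, rfl⟩ | ⟨ψ, h1, rfl⟩, h2⟩
    · exact Or.inl ⟨φ, h1, h2⟩
    · refine Or.inr ⟨ψ.code, (hpi _).2 ⟨ψ, h1, rfl⟩, ?_⟩
      rw [Sat_or, heq, ctxN_fill]
      exact Or.inl h2
    · refine Or.inr ⟨ψ.code, (hpi _).2 ⟨ψ, h1, rfl⟩, ?_⟩
      rw [Sat_or, heq, heq, ctxN_fill, ctxN_fill]
      exact Or.inr h2

/-! ### Meaning of the formulas of the arithmetization -/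

/-- `x` is the code of a `Pi^1_1` sentence, in the sense of `M`. -/
def PisPi (M : Model) (x : M.Num) : Prop := Sat M (fun _ => x) (fun _ => ∅) 𝒜.isPi

/-- `p` is a proof of `x`, in the sense of `M`. -/
def Pprf (M : Model) (p x : M.Num) : Prop := Sat M (asg M.zero p x) (fun _ => ∅) 𝒜.prf

/-- The axiom `a` is used in `p`, in the sense of `M`. -/
def Pax (M : Model) (a p : M.Num) : Prop := Sat M (asg a p M.zero) (fun _ => ∅) 𝒜.axIn

/-- `x` is true, in the sense of `M`. -/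
def Ptr (M : Model) (x : M.Num) : Prop := Sat M (fun _ => x) (fun _ => ∅) 𝒜.tr

variable {𝒜} {M : Model}

theorem Sat_isPi (v : ℕ → M.Num) (V : ℕ → Set M.Num) : Sat M v V 𝒜.isPi ↔ PisPi 𝒜 M (v 2) :=
  Sat_free_asg M 𝒜.isPi_free _ _ _ _ (fun j hj => by
    have : j = 2 := hj
    subst this
    rfl)

theorem Sat_tr (v : ℕ → M.Num) (V : ℕ → Set M.Num) : Sat M v V 𝒜.tr ↔ Ptr 𝒜 M (v 2) :=
  Sat_free_asg M 𝒜.tr_free _ _ _ _ (fun j hj => by
    have : j = 2 := hj
    subst this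
    rfl)

theorem Sat_prf (v : ℕ → M.Num) (V : ℕ → Set M.Num) :
    Sat M v V 𝒜.prf ↔ Pprf 𝒜 M (v 1) (v 2) :=
  Sat_free_asg M 𝒜.prf_free _ _ _ _ (fun j hj => by
    rcases hj with rfl | rfl <;> rfl)

theorem Sat_axIn (v : ℕ → M.Num) (V : ℕ → Set M.Num) :
    Sat M v V 𝒜.axIn ↔ Pax 𝒜 M (v 0) (v 1) :=
  Sat_free_asg M 𝒜.axIn_free _ _ _ _ (fun j hj => by
    rcases hj with rfl | rfl <;> rfl)

theorem std_holds_aca {φ : Fm} (h : ACA0 φ) : std.Holds φ :=
  base_proves (SigmaAC0.aca φ h) std (fun _ hψ => std_base hψ)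

/-- In the standard model the truth predicate is correct. -/
theorem std_Ptr {φ : Fm} (h : φ.IsPi11Sentence) : Ptr 𝒜 std (φ.code : ℕ) ↔ std.Holds φ := by
  have h1 := 𝒜.tr_proves φ h std (fun _ => std_holds_aca) (fun _ => (0 : ℕ)) (fun _ => (∅ : Set ℕ))
    (fun _ => trivial)
  rw [Sat_iff] at h1
  have h2 : Sat std (fun _ => (0 : ℕ)) (fun _ => (∅ : Set ℕ)) (𝒜.tr.inst φ.code) ↔
      Ptr 𝒜 std (φ.code : ℕ) := by
    have h3 : ∀ a : ℕ, Sat std (update (fun _ => (0 : ℕ)) 2 a) (fun _ => (∅ : Set ℕ))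
        (.eq (.var 2) (numeral φ.code)) ↔ a = φ.code := by
      intro a
      have h4 : Sat std (update (fun _ => (0 : ℕ)) 2 a) (fun _ => (∅ : Set ℕ))
        (.eq (.var 2) (numeral φ.code)) ↔ update (fun _ => (0 : ℕ)) 2 a 2 =
          (numeral φ.code).val std (update (fun _ => (0 : ℕ)) 2 a) := Iff.rfl
      rw [h4, std_nl, update_self]
    constructor
    · intro h4
      have h5 := h4 (φ.code : ℕ)
      rw [Sat_imp, h3, Sat_tr] at h5
      have h6 := h5 rfl
      simpa using h6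
    · intro h4 (a : ℕ)
      rw [Sat_imp, h3, Sat_tr]
      rintro rfl
      simpa using h4
  rw [← h2, h1]
  constructor
  · intro h3 v V hV
    refine (Sat_congr std φ _ _ _ _ ?_ ?_).1 h3
    · intro j hj; rw [h.2.1] at hj; exact hj.elim
    · intro j hj; rw [h.2.2] at hj; exact hj.elim
  · intro h3
    exact h3 _ _ (fun _ => trivial)

theorem std_PisPi (n : ℕ) : PisPi 𝒜 std n ↔ ∃ φ : Fm, φ.IsPi11Sentence ∧ φ.code = n := by
  rw [← 𝒜.isPi_std]
  exact (Sat_isPi (M := std) (asg (A := ℕ) 0 0 n) (fun _ => ∅)).symm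

/-- Soundness of proofs from true sentences in the standard model. -/
theorem std_refl {T : Set Fm} (hT : ∀ φ ∈ T, φ.IsSentence) (hT2 : ∀ φ ∈ T, std.Holds φ) {x p : ℕ}
    (hx : PisPi 𝒜 std x) (hp : Pprf 𝒜 std p x) (ha : ∀ a : ℕ, Pax 𝒜 std a p → ∃ φ ∈ T, φ.code = a) :
    Ptr 𝒜 std x := by
  obtain ⟨φ, h1, rfl⟩ := (std_PisPi x).1 hx
  rw [std_Ptr h1]
  have h2 := (𝒜.prf_correct T hT φ h1.2).2 ⟨p, hp, ha⟩
  exact h2 std hT2

end

end Pool.Agent.Y561.RF
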