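import Pool.Agent.Y561.RF.Comp

/-!
Structures in which comprehension and choice hold for arithmetical formulas with one number
parameter and one set parameter are models of `Sigma^1_1-AC_0`.
-/

set_option autoImplicit false

namespace Pool.Agent.Y561.RF

open Pool.Agent.H986R3.SOA Function

/-- `J` is the join of `X` and `Y`. -/
def IsJoin (M : Model) (X Y J : Set M.Num) : Prop :=
  ∀ a, (M.pr (M.num 0) a ∈ J ↔ a ∈ X) ∧ (M.pr (M.num 1) a ∈ J ↔ a ∈ Y)

/-- The assignment with the value `a` for the variable `0` and `c` for the others. -/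
def as2 {A : Type} (a c : A) : ℕ → A := fun n => if n = 0 then a else c

/-- A formula with number variables `0, 1` and set variable `0`. -/
def Small (φ : Fm) : Prop := φ.Arithmetical ∧ φ.fvN ⊆ {0, 1} ∧ φ.fvS ⊆ {0}

/-- The properties of a model that are used. -/
structure Good (M : Model) : Prop where
  prinj : PrInj M
  succ_ne : ∀ n, M.add n M.one ≠ M.zero
  succ_inj : ∀ m n, M.add m M.one = M.add n M.one → m = n
  join : ∀ X ∈ M.sets, ∀ Y ∈ M.sets, ∃ J ∈ M.sets, IsJoin M X Y J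
  comp : ∀ φ, Small φ → ∀ X ∈ M.sets, ∀ c, ∃ Y ∈ M.sets, ∀ a,
    a ∈ Y ↔ Sat M (as2 a c) (fun _ => X) φ
  ac : ∀ θ, Small θ → ∀ P ∈ M.sets, ∀ c,
    (∀ a, ∃ X ∈ M.sets, ∃ J ∈ M.sets, IsJoin M P X J ∧ Sat M (as2 a c) (fun _ => J) θ) →
    ∃ Y ∈ M.sets, ∀ a, ∃ X ∈ M.sets, (∀ m, m ∈ X ↔ M.pr a m ∈ Y) ∧
      ∃ J ∈ M.sets, IsJoin M P X J ∧ Sat M (as2 a c) (fun _ => J) θ

variable {M : Model}

theorem Good.num_inj (h : Good M) : ∀ m n : ℕ, M.num m = M.num n → m = n := by
  intro m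
  induction m with
  | zero =>
    intro n hn
    cases n with
    | zero => rfl
    | succ n => exact absurd hn.symm (h.succ_ne _)
  | succ m ih =>
    intro n hn
    cases n with
    | zero => exact absurd hn (h.succ_ne _)
    | succ n => rw [ih n (h.succ_inj _ _ hn)]

/-- A strict upper bound for the set variables of an arithmetical formula. -/
def sbd : Fm → ℕ
  | .eq _ _ => 0
  | .lt _ _ => 0
  | .mem _ i => i + 1
  | .neg φ => sbd φ
  | .and φ ψ => max (sbd φ) (sbd ψ)
  | .all _ φ => sbd φ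
  | .allS i φ => max (i + 1) (sbd φ)

theorem sbd_fv (φ : Fm) : ∀ x ∈ φ.fvS, x < sbd φ := by
  induction φ with
  | eq s t => exact fun x hx => hx.elim
  | lt s t => exact fun x hx => hx.elim
  | mem t q => intro x hx; have : x = q := hx; subst this; simp [sbd]
  | neg φ ih => exact ih
  | and φ ψ ih1 ih2 =>
    rintro x (hx | hx)
    · exact lt_of_lt_of_le (ih1 x hx) (le_max_left _ _)
    · exact lt_of_lt_of_le (ih2 x hx) (le_max_right _ _)
  | all i φ ih => exact fun x hx => ih x hx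
  | allS i φ ih =>
    rintro x ⟨hx, _⟩
    exact lt_of_lt_of_le (ih x hx) (le_max_right _ _)

/-- The formula used to add a section. -/
def stepF : Fm :=
  .or (.and (.mem (prT (numeral 0) (.var 0)) 0) (.neg (.ex 3 (.eq (.var 0) (prT (.var 1) (.var 3))))))
    (.ex 3 (.and (.eq (.var 0) (prT (.var 1) (.var 3))) (.mem (prT (numeral 1) (.var 3)) 0)))

theorem stepF_small : Small stepF := by
  refine ⟨?_, ?_, ?_⟩
  · simp [stepF, Fm.or, Fm.ex, Fm.Arithmetical]
  · intro x hx
    simp only [stepF, Fm.or, Fm.ex, Fm.fvN, Tm.fv_prT, numeral_fv, Tm.fv, Set.mem_union,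
      Set.mem_sdiff, Set.mem_singleton_iff, Set.mem_empty_iff_false] at hx
    simp only [Set.mem_insert_iff, Set.mem_singleton_iff]
    tauto
  · intro x hx
    simp only [stepF, Fm.or, Fm.ex, Fm.fvS, Set.mem_union, Set.mem_singleton_iff,
      Set.mem_empty_iff_false] at hx
    simp only [Set.mem_singleton_iff]
    tauto

theorem Sat_stepF (a c : M.Num) (X : Set M.Num) : Sat M (as2 a c) (fun _ => X) stepF ↔
    (M.pr (M.num 0) a ∈ X ∧ ¬ ∃ b, a = M.pr c b) ∨
      ∃ b, a = M.pr c b ∧ M.pr (M.num 1) b ∈ X := by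
  simp only [stepF, Sat_or, Sat, Sat_ex, val_prT, val_numeral, Tm.val]
  simp [as2, Function.update_apply]

/-- Finitely many set parameters can be coded by one. -/
theorem Good.code_sets (h : Good M) (V : ℕ → Set M.Num) (hV : ∀ j, V j ∈ M.sets) (k : ℕ) :
    ∃ Z ∈ M.sets, ∀ j < k, ∀ a, M.pr (M.num j) a ∈ Z ↔ a ∈ V j := by
  induction k with
  | zero => exact ⟨V 0, hV 0, fun j hj => by omega⟩
  | succ k ih =>
    obtain ⟨Z, hZ, hZ2⟩ := ih
    obtain ⟨J, hJ, hJ2⟩ := h.join Z hZ (V k) (hV k)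
    obtain ⟨Y, hY, hY2⟩ := h.comp stepF stepF_small J hJ (M.num k)
    refine ⟨Y, hY, fun j hj a => ?_⟩
    rw [hY2, Sat_stepF]
    rcases Nat.lt_succ_iff_lt_or_eq.1 hj with h3 | h3
    · have hne : ∀ b, M.pr (M.num j) a ≠ M.pr (M.num k) b := by
        intro b hb
        have := h.num_inj _ _ (h.prinj _ _ _ _ hb).1
        omega
      rw [(hJ2 _).1, hZ2 j h3]
      constructor
      · rintro (⟨h4, _⟩ | ⟨b, h4, _⟩)
        · exact h4
        · exact absurd h4 (hne b)
      · intro h4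
        exact Or.inl ⟨h4, fun ⟨b, hb⟩ => hne b hb⟩
    · subst h3
      constructor
      · rintro (⟨_, h4⟩ | ⟨b, h4, h5⟩)
        · exact absurd ⟨a, rfl⟩ h4
        · rw [(hJ2 _).2] at h5
          rw [(h.prinj _ _ _ _ h4).2]
          exact h5
      · intro h4
        exact Or.inr ⟨a, rfl, ((hJ2 _).2).2 h4⟩

/-- The plain encoding of membership. -/
def gpl (q : ℕ) (t : Tm) : Tm := prT (numeral q) t

theorem gpl_fv (q : ℕ) (t : Tm) : (gpl q t).fv ⊆ t.fv := by
  intro x hx
  simp only [gpl, Tm.fv_prT, numeral_fv, Set.mem_union, Set.mem_empty_iff_false, false_or] at hx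
  exact hx

/-- Arithmetical comprehension. -/
theorem Good.compr (h : Good M) {φ : Fm} (hφ : φ.Arithmetical) (v : ℕ → M.Num)
    (V : ℕ → Set M.Num) (hV : ∀ j, V j ∈ M.sets) (i : ℕ) :
    {a | Sat M (update v i a) V φ} ∈ M.sets := by
  obtain ⟨Z, hZ, hZ2⟩ := h.code_sets V hV (sbd φ)
  set k := max φ.bd (i + 1) with hk
  have hk1 : φ.bd ≤ k := le_max_left _ _
  have hk2 : i < k := lt_of_lt_of_le (Nat.lt_succ_self i) (le_max_right _ _)
  obtain ⟨Y, hY, hY2⟩ := h.comp (one gpl k i φ)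
    ⟨one_arith _ _ _ _, one_fvN gpl_fv hk1 hk2, one_fvS _ _ _ _⟩ Z hZ (tup M v k)
  have : {a | Sat M (update v i a) V φ} = Y := by
    ext a
    rw [hY2 a, Sat_one (M := M) h.prinj (g := gpl) (γ := fun q a => M.pr (M.num q) a)
      (fun q t v => by simp [gpl]) hφ hk1 v (as2 a (tup M v k)) (fun _ => Z) rfl]
    refine Sat_congr M φ _ _ _ _ (fun j _ => rfl) (fun j hj => ?_)
    ext b
    exact (hZ2 j (sbd_fv φ j hj) b).symm
  rw [this]
  exact hY

/-- The encoding of membership used for choice. -/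
def gch (X W q : ℕ) (t : Tm) : Tm :=
  if q = W then prT (numeral 1) (prT (numeral 1) t)
  else if q = X then prT (numeral 1) (prT (numeral 0) t)
  else prT (numeral 0) (prT (numeral q) t)

theorem gch_fv (X W q : ℕ) (t : Tm) : (gch X W q t).fv ⊆ t.fv := by
  intro x hx
  unfold gch at hx
  split_ifs at hx <;>
  · simp only [Tm.fv_prT, numeral_fv, Set.mem_union, Set.mem_empty_iff_false, false_or] at hx
    exact hx

/-- Choice for the formula `∃ W θ`. -/
theorem Good.choice (h : Good M) {θ : Fm} (hθ : θ.Arithmetical) (v : ℕ → M.Num)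
    (V : ℕ → Set M.Num) (hV : ∀ j, V j ∈ M.sets) (n X W : ℕ)
    (H : ∀ a, ∃ A ∈ M.sets, ∃ B ∈ M.sets, Sat M (update v n a) (update (update V X A) W B) θ) :
    ∃ Y ∈ M.sets, ∀ a, ∃ A ∈ M.sets, (∀ m, m ∈ A ↔ M.pr a m ∈ Y) ∧
      ∃ B ∈ M.sets, Sat M (update v n a) (update (update V X A) W B) θ := by
  obtain ⟨P, hP, hP2⟩ := h.code_sets V hV (sbd θ)
  set k := max θ.bd (n + 1) with hk
  have hk1 : θ.bd ≤ k := le_max_left _ _
  have hk2 : n < k := lt_of_lt_of_le (Nat.lt_succ_self n) (le_max_right _ _)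
  have hsm : Small (one (gch X W) k n θ) :=
    ⟨one_arith _ _ _ _, one_fvN (gch_fv X W) hk1 hk2, one_fvS _ _ _ _⟩
  set γ : ℕ → M.Num → M.Num := fun q a =>
    if q = W then M.pr (M.num 1) (M.pr (M.num 1) a)
    else if q = X then M.pr (M.num 1) (M.pr (M.num 0) a)
    else M.pr (M.num 0) (M.pr (M.num q) a) with hγ
  have hg : ∀ q t (v : ℕ → M.Num), (gch X W q t).val M v = γ q (t.val M v) := by
    intro q t v
    simp only [gch, hγ]
    split_ifs <;> simp
  have key : ∀ a (A B X' J : Set M.Num), IsJoin M A B X' → IsJoin M P X' J →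
      (Sat M (as2 a (tup M v k)) (fun _ => J) (one (gch X W) k n θ) ↔
        Sat M (update v n a) (update (update V X A) W B) θ) := by
    intro a A B X' J h1 h2
    rw [Sat_one (M := M) h.prinj hg hθ hk1 v (as2 a (tup M v k)) (fun _ => J) rfl]
    refine Sat_congr M θ _ _ _ _ (fun j _ => rfl) (fun j hj => ?_)
    ext b
    simp only [Set.mem_ofPred_eq, hγ]
    by_cases h3 : j = W
    · subst h3
      rw [if_pos rfl, update_self, (h2 _).2, (h1 _).2]
    · rw [if_neg h3, update_of_ne h3]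
      by_cases h4 : j = X
      · subst h4
        rw [if_pos rfl, update_self, (h2 _).2, (h1 _).1]
      · rw [if_neg h4, update_of_ne h4, (h2 _).1, hP2 j (sbd_fv θ j hj)]
  -- the parts of a set
  have hpart : ∀ (c : M.Num) (X' : Set M.Num), X' ∈ M.sets → {m | M.pr c m ∈ X'} ∈ M.sets := by
    intro c X' hX'
    have h1 := h.compr (φ := .mem (prT (.var 1) (.var 0)) 0) trivial (fun _ => c) (fun _ => X')
      (fun _ => hX') 0
    have : {m | M.pr c m ∈ X'} =
        {a | Sat M (update (fun _ => c) 0 a) (fun _ => X') (.mem (prT (.var 1) (.var 0)) 0)} := by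
      ext a
      simp [Sat, Tm.val]
    rw [this]
    exact h1
  have hjp : ∀ X' : Set M.Num, IsJoin M {m | M.pr (M.num 0) m ∈ X'} {m | M.pr (M.num 1) m ∈ X'}
      X' := fun X' a => ⟨Iff.rfl, Iff.rfl⟩
  obtain ⟨Y', hY', hY2⟩ := h.ac _ hsm P hP (tup M v k) (by
    intro a
    obtain ⟨A, hA, B, hB, h1⟩ := H a
    obtain ⟨X', hX', h2⟩ := h.join A hA B hB
    obtain ⟨J, hJ, h3⟩ := h.join P hP X' hX'
    exact ⟨X', hX', J, hJ, h3, (key a A B X' J h2 h3).2 h1⟩)
  -- the first components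
  have hY : {b | ∃ a m, b = M.pr a m ∧ M.pr a (M.pr (M.num 0) m) ∈ Y'} ∈ M.sets := by
    have h1 := h.compr (φ := .ex 1 (.ex 2 (.and (.eq (.var 0) (prT (.var 1) (.var 2)))
      (.mem (prT (.var 1) (prT (numeral 0) (.var 2))) 0))))
      (by simp [Fm.ex, Fm.Arithmetical]) (fun _ => M.zero) (fun _ => Y') (fun _ => hY') 0
    have : {b | ∃ a m, b = M.pr a m ∧ M.pr a (M.pr (M.num 0) m) ∈ Y'} =
        {a | Sat M (update (fun _ => M.zero) 0 a) (fun _ => Y')
          (.ex 1 (.ex 2 (.and (.eq (.var 0) (prT (.var 1) (.var 2)))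
            (.mem (prT (.var 1) (prT (numeral 0) (.var 2))) 0))))} := by
      ext a
      simp [Sat, Sat_ex, Tm.val, Function.update_apply]
    rw [this]
    exact h1
  refine ⟨_, hY, fun a => ?_⟩
  obtain ⟨X', hX', h1, J, hJ, h2, h3⟩ := hY2 a
  refine ⟨{m | M.pr (M.num 0) m ∈ X'}, hpart _ _ hX', fun m => ?_,
    {m | M.pr (M.num 1) m ∈ X'}, hpart _ _ hX', (key a _ _ X' J (hjp X') h2).1 h3⟩
  simp only [Set.mem_ofPred_eq]
  rw [h1]
  constructor
  · intro h4
    exact ⟨a, m, rfl, h4⟩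
  · rintro ⟨a', m', h4, h5⟩
    obtain ⟨rfl, rfl⟩ := h.prinj _ _ _ _ h4
    exact h5

/-- The choice axioms of `Sigma^1_1-AC_0`. -/
theorem Good.holds_choice (h : Good M) {η : Fm} {n m X Y : ℕ} (hη : η.IsSigma11 ∨ η.Arithmetical)
    (hY : Y ∉ η.fvS) (hYX : Y ≠ X) (hmn : m ≠ n) : M.Holds (.imp (.all n (.exS X η))
        (.exS Y (.all n (.exS X (.and
          (.all m (.iff (.mem (.var m) X) (.mem (prT (.var n) (.var m)) Y))) η))))) := by
  intro v V hV
  have gen : ∀ (W : ℕ) (θ : Fm), θ.Arithmetical →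
      (∀ (v : ℕ → M.Num) (V : ℕ → Set M.Num), Sat M v V η ↔
        ∃ B ∈ M.sets, Sat M v (update V W B) θ) →
      Sat M v V (.imp (.all n (.exS X η))
        (.exS Y (.all n (.exS X (.and
          (.all m (.iff (.mem (.var m) X) (.mem (prT (.var n) (.var m)) Y))) η))))) := by
    intro W θ hθ hsat
    rw [Sat_imp]
    intro h1
    obtain ⟨S, hS, h2⟩ := h.choice hθ v V hV n X W (fun a => by
      have h3 := h1 a
      rw [Sat_exS] at h3
      obtain ⟨A, hA, h3⟩ := h3
      rw [hsat] at h3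
      exact ⟨A, hA, h3⟩)
    rw [Sat_exS]
    refine ⟨S, hS, fun a => ?_⟩
    rw [Sat_exS]
    obtain ⟨A, hA, h3, h4⟩ := h2 a
    refine ⟨A, hA, ?_, ?_⟩
    · intro b
      rw [Sat_iff]
      simp only [Sat, Tm.val, val_prT, update_self, update_of_ne hYX, update_of_ne hmn.symm]
      exact h3 b
    · have h5 : Sat M (update v n a) (update V X A) η := (hsat _ _).2 h4
      refine (Sat_congr M η _ _ _ _ (fun j _ => rfl) (fun j hj => ?_)).1 h5
      by_cases hjX : j = X
      · subst hjX; simp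
      · rw [update_of_ne hjX, update_of_ne hjX, update_of_ne (by rintro rfl; exact hY hj)]
  rcases hη with ⟨W, θ, rfl, hθ⟩ | hη
  · exact gen W θ hθ (fun v V => Sat_exS M v V W θ)
  · -- an unused set variable
    refine gen (sbd η) η hη (fun v V => ?_)
    have h1 : ∀ B, Sat M v (update V (sbd η) B) η ↔ Sat M v V η := fun B =>
      Sat_congr M η _ _ _ _ (fun j _ => rfl) (fun j hj => by
        rw [update_of_ne (sbd_fv η j hj).ne])
    constructor
    · intro h2
      obtain ⟨B, hB⟩ := M.sets_nonempty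
      exact ⟨B, hB, (h1 B).2 h2⟩
    · rintro ⟨B, _, h2⟩
      exact (h1 B).1 h2

/-- Arithmetical comprehension axioms. -/
theorem Good.holds_comprehension (h : Good M) {φ : Fm} {i j : ℕ} (hφ : φ.Arithmetical)
    (hj : j ∉ φ.fvS) : M.Holds (.exS j (.all i (.iff (.mem (.var i) j) φ))) := by
  intro v V hV
  rw [Sat_exS]
  refine ⟨_, h.compr hφ v V hV i, fun a => ?_⟩
  rw [Sat_iff]
  simp only [Sat, Tm.val, update_self]
  refine Sat_congr M φ _ _ _ _ (fun _ _ => rfl) (fun q hq => ?_)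
  rw [update_of_ne (by rintro rfl; exact hj hq)]

end Pool.Agent.Y561.RF
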