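import Pool.Agent.Y561.RF.Simple

/-!
The iterated version: a true extension `T` of `Sigma^1_1-AC_0` with a `Pi^1_1` definition `τ` such
that `T` proves `τ(n)` for each axiom `n` of `T`, and `T` proves its `Pi^1_1`-soundness for `τ`.
-/

set_option autoImplicit false

namespace Pool.Agent.Y561.RF

open Pool.Agent.H986R3.SOA Function

/-- The code of `instA τ n` from the codes of the numeral and of `τ`. -/
def instN (y t : ℕ) : ℕ := pr 5 (pr 0 (pr 3 (pr 4 (pr (pr 0 (pr (pr 0 0) y)) (pr 3 t)))))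

theorem code_instA (τ : Fm) (n : ℕ) : (instA τ n).code = instN (numeral n).code τ.code := rfl

/-- The same as a term. -/
def instT (y t : Tm) : Tm :=
  prT (numeral 5) (prT (numeral 0) (prT (numeral 3) (prT (numeral 4)
    (prT (prT (numeral 0) (prT (prT (numeral 0) (numeral 0)) y)) (prT (numeral 3) t)))))

/-- The same in a structure. -/
def instM (M : Model) (y t : M.Num) : M.Num :=
  M.pr (M.num 5) (M.pr (M.num 0) (M.pr (M.num 3) (M.pr (M.num 4)
    (M.pr (M.pr (M.num 0) (M.pr (M.pr (M.num 0) (M.num 0)) y)) (M.pr (M.num 3) t)))))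

@[simp] theorem val_instT (M : Model) (v : ℕ → M.Num) (y t : Tm) :
    (instT y t).val M v = instM M (y.val M v) (t.val M v) := by
  simp only [instT, val_prT, val_numeral, instM]

theorem instT_fv (y t : Tm) : (instT y t).fv ⊆ y.fv ∪ t.fv := by
  intro z hz
  simp only [instT, Tm.fv_prT, numeral_fv, Set.mem_union, Set.mem_empty_iff_false, false_or] at hz
  exact hz

theorem std_instM (y t : ℕ) : @Eq ℕ (instM std y t) (instN y t) := by
  have h : ∀ n : ℕ, std.num n = (n : ℕ) := std_num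
  unfold instM
  rw [h 5, h 0, h 3, h 4]
  rfl

theorem std_gamN (i y x : ℕ) : @Eq ℕ (std.gam i y x) (gam i y x) := by
  have h2 := num_gam arith_std i y x
  have e1 : std.num y = (y : ℕ) := std_num _
  have e2 : std.num x = (x : ℕ) := std_num _
  have e3 : std.num (gam i y x) = gam i y x := std_num _
  rw [e1, e2, e3] at h2
  exact h2.symm

theorem std_caddN (y : ℕ) : std.cadd y = pr 3 (pr y (pr 2 0)) := by
  have h3 : std.num 3 = (3 : ℕ) := std_num 3
  have h4 : std.num (pr 2 0) = (pr 2 0 : ℕ) := std_num _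
  show std.pr (std.num 3) (std.pr y (std.num (pr 2 0))) = _
  rw [h3, h4]
  rfl

section
variable (𝒜 : Arithmetization) (i : ℕ) (θ : Fm)

/-- The table of numerals. -/
def nmF (s t : Tm) : Fm := .mem (prT (numeral 0) (prT s t)) i

/-- `t` has stage `s`. -/
def sgF (s t : Tm) : Fm := .mem (prT (numeral 1) (prT s t)) i

/-- The definition of stage `0` apart from one code. -/
def alF : Fm := .or (baseF 𝒜) (.eq (.var 0) (numeral (rho 𝒜).code))

/-- The set `X_i` contains the table of numerals and the table of stages. -/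
def corrF : Fm :=
  .and (.all 6 (.iff (nmF i .zero (.var 6)) (.eq (.var 6) (numeral (pr 1 0)))))
  (.and (.all 5 (.all 6 (.iff (nmF i (.add (.var 5) .one) (.var 6))
    (.ex 7 (.and (nmF i (.var 5) (.var 7)) (.eq (.var 6) (caddT (.var 7))))))))
  (.and (.all 0 (.iff (sgF i .zero (.var 0)) (.or (alF 𝒜) (.eq (.var 0) (.var 4)))))
  (.all 5 (.all 6 (.iff (sgF i (.add (.var 5) .one) (.var 6))
    (.ex 7 (.and (sgF i (.var 5) (.var 7)) (.ex 8 (.and (nmF i (.var 7) (.var 8))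
      (.ex 9 (.and (nmF i (.var 3) (.var 9))
        (.eq (.var 6) (instT (.var 8) (gamT i (.var 9) (.var 3)))))))))))))))

/-- `x_0` has a stage at most `x_5`. -/
def leF : Fm := .ex 6 (.and (.or (.lt (.var 6) (.var 5)) (.eq (.var 6) (.var 5)))
  (sgF i (.var 6) (.var 0)))

/-- Among the axioms used in a proof there is one of maximal stage. -/
def maxF : Fm :=
  .all 1 (.imp (.and (.ex 0 𝒜.axIn) (.all 0 (.imp 𝒜.axIn (.ex 5 (sgF i (.var 5) (.var 0))))))
    (.ex 0 (.and 𝒜.axIn (.ex 5 (.and (sgF i (.var 5) (.var 0))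
      (.all 0 (.imp 𝒜.axIn (leF i))))))))

/-- Existence of the tables, and the maximum property. -/
def kap : Fm := .all 3 (.all 4 (.and (.exS i (corrF 𝒜 i)) (.allS i (.imp (corrF 𝒜 i) (maxF 𝒜 i)))))

/-- The bound variable used for the section. -/
def bv : ℕ := max θ.bd 10

/-- `θ` for the section of `X_i` at `2`. -/
def thF : Fm := .all (bv θ) (.imp (.eq (.var (bv θ)) (numeral 1)) (θ.sec (bv θ) i))

/-- Reflection for the axioms of stage at most `x_5`. -/
def rfF : Fm := .all 2 (.imp (.and 𝒜.isPi (𝒜.Pr (leF i))) (thF i θ))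

/-- `x_0` has a stage, and for each of its stages reflection holds for the axioms of at most this
stage. -/
def h0F : Fm :=
  .imp (corrF 𝒜 i) (.and (.ex 5 (sgF i (.var 5) (.var 0)))
    (.all 5 (.imp (sgF i (.var 5) (.var 0)) (rfF 𝒜 i θ))))

def hF : Fm := .all 4 (.imp (.eq (.var 4) (numeral (kap 𝒜 i).code)) (h0F 𝒜 i θ))

/-- The `Pi^1_1` definition. -/
def tauF : Fm := Gam i (hF 𝒜 i θ).code (hF 𝒜 i θ)

theorem alF_free : (alF 𝒜).FreeIn {0} := by
  constructor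
  · intro x hx
    simp only [alF, Fm.or, Fm.fvN, Tm.fv, numeral_fv, Set.mem_union,
      Set.mem_empty_iff_false, or_false] at hx
    rcases hx with hx | hx
    · exact (baseF_free 𝒜).1 hx
    · exact hx
  · simp [alF, Fm.or, Fm.fvS, (baseF_free 𝒜).2]

theorem alF_arith : (alF 𝒜).Arithmetical := ⟨baseF_arith 𝒜, trivial⟩

/-- The meaning of `alF`. -/
def Pal (M : Model) (a : M.Num) : Prop := Sat M (fun _ => a) (fun _ => ∅) (alF 𝒜)

variable {𝒜} {M : Model}

theorem Sat_alF (v : ℕ → M.Num) (V : ℕ → Set M.Num) : Sat M v V (alF 𝒜) ↔ Pal 𝒜 M (v 0) :=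
  Sat_free_asg M (alF_free 𝒜) _ _ _ _ (fun j hj => by
    have : j = 0 := hj
    subst this
    rfl)

/-- The meaning of `corrF`. -/
def Corr (𝒜 : Arithmetization) (i : ℕ) (M : Model) (W : Set M.Num) (h k : M.Num) : Prop :=
  (∀ y, M.pr (M.num 0) (M.pr M.zero y) ∈ W ↔ y = M.num (pr 1 0)) ∧
  (∀ u y, M.pr (M.num 0) (M.pr (M.add u M.one) y) ∈ W ↔
    ∃ y', M.pr (M.num 0) (M.pr u y') ∈ W ∧ y = M.cadd y') ∧
  (∀ a, M.pr (M.num 1) (M.pr M.zero a) ∈ W ↔ (Pal 𝒜 M a ∨ a = k)) ∧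
  (∀ u a, M.pr (M.num 1) (M.pr (M.add u M.one) a) ∈ W ↔
    ∃ b, M.pr (M.num 1) (M.pr u b) ∈ W ∧ ∃ y, M.pr (M.num 0) (M.pr b y) ∈ W ∧
      ∃ w, M.pr (M.num 0) (M.pr h w) ∈ W ∧ a = instM M y (M.gam i w h))

theorem Sat_corrF (v : ℕ → M.Num) (V : ℕ → Set M.Num) :
    Sat M v V (corrF 𝒜 i) ↔ Corr 𝒜 i M (V i) (v 3) (v 4) := by
  simp only [corrF, nmF, sgF, Sat, Sat_iff, Sat_ex, Sat_or, Sat_alF, val_prT, Tm.val, val_numeral,
    val_caddT, val_gamT, val_instT, Corr]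
  simp [Function.update_apply]

theorem Sat_leF (v : ℕ → M.Num) (V : ℕ → Set M.Num) :
    Sat M v V (leF i) ↔ ∃ u, (M.lt u (v 5) ∨ u = v 5) ∧
      M.pr (M.num 1) (M.pr u (v 0)) ∈ V i := by
  simp only [leF, sgF, Sat, Sat_ex, Sat_or, val_prT, Tm.val, val_numeral]
  simp [Function.update_apply]

/-- The meaning of `maxF`. -/
def MaxP (𝒜 : Arithmetization) (M : Model) (W : Set M.Num) : Prop :=
  ∀ p, (∃ a, Pax 𝒜 M a p) → (∀ a, Pax 𝒜 M a p → ∃ u, M.pr (M.num 1) (M.pr u a) ∈ W) →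
    ∃ a, Pax 𝒜 M a p ∧ ∃ s, M.pr (M.num 1) (M.pr s a) ∈ W ∧
      ∀ b, Pax 𝒜 M b p → ∃ u, (M.lt u s ∨ u = s) ∧ M.pr (M.num 1) (M.pr u b) ∈ W

theorem Sat_maxF (v : ℕ → M.Num) (V : ℕ → Set M.Num) :
    Sat M v V (maxF 𝒜 i) ↔ MaxP 𝒜 M (V i) := by
  simp only [maxF, sgF, Sat, Sat_imp, Sat_ex, Sat_axIn, Sat_leF, val_prT, Tm.val, val_numeral,
    MaxP]
  simp [Function.update_apply]

theorem Sat_kap (v : ℕ → M.Num) (V : ℕ → Set M.Num) :
    Sat M v V (kap 𝒜 i) ↔ ∀ h k, (∃ W ∈ M.sets, Corr 𝒜 i M W h k) ∧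
      ∀ W ∈ M.sets, Corr 𝒜 i M W h k → MaxP 𝒜 M W := by
  simp only [kap, Sat, Sat_imp, Sat_exS, Sat_corrF, Sat_maxF]
  simp [Function.update_apply]

end

end Pool.Agent.Y561.RF
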