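import Pool.Agent.Y561.RF.Iter

/-!
The iterated version: semantics of the definition.
-/

set_option autoImplicit false

namespace Pool.Agent.Y561.RF

open Pool.Agent.H986R3.SOA Function

section
variable {𝒜 : Arithmetization} {i : ℕ} {θ : Fm}

/-- Properties of the matrix of the truth predicate. -/
structure TrOk (𝒜 : Arithmetization) (i : ℕ) (θ : Fm) : Prop where
  tr : 𝒜.tr = .allS i θ
  arith : θ.Arithmetical
  fvN : θ.fvN ⊆ {2}
  fvS : θ.fvS ⊆ {i}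

theorem exists_trOk (𝒜 : Arithmetization) : ∃ i θ, TrOk 𝒜 i θ := by
  obtain ⟨i, θ, htr, hθ⟩ := 𝒜.tr_pi
  refine ⟨i, θ, htr, hθ, ?_, ?_⟩
  · have := 𝒜.tr_free.1
    rw [htr] at this
    exact this
  · have h2 : θ.fvS \ {i} = ∅ := by
      have := 𝒜.tr_free.2
      rw [htr] at this
      exact this
    intro x hx
    by_contra hne
    have : x ∈ θ.fvS \ {i} := ⟨hx, hne⟩
    rw [h2] at this
    exact this

/-- The meaning of the matrix of the truth predicate. -/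
def Pth (M : Model) (i : ℕ) (θ : Fm) (x : M.Num) (X : Set M.Num) : Prop :=
  Sat M (fun _ => x) (update (fun _ => ∅) i X) θ

theorem Ptr_iff (h : TrOk 𝒜 i θ) (M : Model) (x : M.Num) :
    Ptr 𝒜 M x ↔ ∀ X ∈ M.sets, Pth M i θ x X := by
  rw [Ptr, h.tr]
  rfl

theorem Sat_thF (h : TrOk 𝒜 i θ) {M : Model} (v : ℕ → M.Num) (V : ℕ → Set M.Num) :
    Sat M v V (thF i θ) ↔
      Pth M i θ (v 2) {n | M.pr (M.add (M.num 1) M.one) n ∈ V i} := by
  have hb : θ.bd ≤ bv θ := le_max_left _ _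
  have hb2 : 10 ≤ bv θ := le_max_right _ _
  have h1 : Sat M v V (thF i θ) ↔ ∀ a, Sat M (update v (bv θ) a) V
      (.imp (.eq (.var (bv θ)) (numeral 1)) (θ.sec (bv θ) i)) := Iff.rfl
  have h2 : ∀ a, Sat M (update v (bv θ) a) V (.eq (.var (bv θ)) (numeral 1)) ↔ a = M.num 1 := by
    intro a
    simp only [Sat, Tm.val, update_self, val_numeral]
  have h3 : ∀ a, Sat M (update v (bv θ) a) V (θ.sec (bv θ) i) ↔
      Pth M i θ (v 2) {n | M.pr (M.add a M.one) n ∈ V i} := by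
    intro a
    rw [Sat_sec M (bv θ) i θ h.arith hb, update_self]
    refine Sat_congr M θ _ _ _ _ (fun j hj => ?_) (fun j hj => ?_)
    · have : j = 2 := h.fvN hj
      subst this
      rw [update_of_ne (by omega)]
    · have : j = i := h.fvS hj
      subst this
      simp
  rw [h1]
  constructor
  · intro h4
    have h5 := h4 (M.num 1)
    rw [Sat_imp, h2, h3] at h5
    exact h5 rfl
  · intro h4 a
    rw [Sat_imp, h2, h3]
    rintro rfl
    exact h4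

/-- Reflection for the axioms of stage at most `s`, with the section at `2`. -/
def RfM (𝒜 : Arithmetization) (i : ℕ) (θ : Fm) (M : Model) (W : Set M.Num) (s : M.Num) : Prop :=
  ∀ x, PisPi 𝒜 M x → (∃ p, Pprf 𝒜 M p x ∧ ∀ a, Pax 𝒜 M a p →
    ∃ u, (M.lt u s ∨ u = s) ∧ M.pr (M.num 1) (M.pr u a) ∈ W) →
      Pth M i θ x {n | M.pr (M.add (M.num 1) M.one) n ∈ W}

theorem Sat_rfF (h : TrOk 𝒜 i θ) {M : Model} (v : ℕ → M.Num) (V : ℕ → Set M.Num) :
    Sat M v V (rfF 𝒜 i θ) ↔ RfM 𝒜 i θ M (V i) (v 5) := by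
  have h1 : Sat M v V (rfF 𝒜 i θ) ↔ ∀ x, Sat M (update v 2 x) V
      (.imp (.and 𝒜.isPi (𝒜.Pr (leF i))) (thF i θ)) := Iff.rfl
  have h2 : ∀ x, Sat M (update v 2 x) V (.and 𝒜.isPi (𝒜.Pr (leF i))) ↔
      Sat M (update v 2 x) V 𝒜.isPi ∧ Sat M (update v 2 x) V (𝒜.Pr (leF i)) := fun _ => Iff.rfl
  rw [h1, RfM]
  refine forall_congr' fun x => ?_
  rw [Sat_imp, Sat_thF h, h2, Sat_isPi, Sat_Pr, and_imp]
  simp only [update_self, Sat_leF]
  simp

/-- The meaning of `tauF`. -/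
def TauM (𝒜 : Arithmetization) (i : ℕ) (θ : Fm) (M : Model) (h k a : M.Num) : Prop :=
  ∀ W ∈ M.sets, Corr 𝒜 i M W h k → (∃ s, M.pr (M.num 1) (M.pr s a) ∈ W) ∧
    ∀ s, M.pr (M.num 1) (M.pr s a) ∈ W → RfM 𝒜 i θ M W s

theorem Sat_tauF (h : TrOk 𝒜 i θ) {M : Model} (v : ℕ → M.Num) (V : ℕ → Set M.Num) :
    Sat M v V (tauF 𝒜 i θ) ↔
      TauM 𝒜 i θ M (M.num (hF 𝒜 i θ).code) (M.num (kap 𝒜 i).code) (v 0) := by
  have h0 : ∀ (v : ℕ → M.Num) (V : ℕ → Set M.Num), Sat M v V (h0F 𝒜 i θ) ↔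
      (Corr 𝒜 i M (V i) (v 3) (v 4) → (∃ s, M.pr (M.num 1) (M.pr s (v 0)) ∈ V i) ∧
        ∀ s, M.pr (M.num 1) (M.pr s (v 0)) ∈ V i → RfM 𝒜 i θ M (V i) s) := by
    intro v V
    simp only [h0F, sgF, Sat, Sat_imp, Sat_ex, Sat_corrF, Sat_rfF h, val_prT, Tm.val, val_numeral]
    simp
  simp only [tauF, Gam, hF, Sat, Sat_imp, Tm.val, val_numeral, h0, update_self]
  simp [TauM]

/-! ### Syntactic properties -/

theorem corrF_arith : (corrF 𝒜 i).Arithmetical := by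
  have := alF_arith 𝒜
  simp only [corrF, nmF, sgF, Fm.iff, Fm.imp, Fm.ex, Fm.or, Fm.Arithmetical]
  tauto

theorem corrF_fvN : (corrF 𝒜 i).fvN ⊆ {3, 4} := by
  intro x hx
  have h1 : x ∈ (alF 𝒜).fvN → x ∈ ({0} : Set ℕ) := fun h => (alF_free 𝒜).1 h
  have h2 : x ∈ (caddT (.var 7)).fv → x ∈ ({7} : Set ℕ) := by
    intro h
    simp only [caddT, Tm.fv_prT, Tm.fv, numeral_fv, Set.mem_union, Set.mem_empty_iff_false,
      false_or, or_false] at h
    exact h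
  have h3 : x ∈ (instT (.var 8) (gamT i (.var 9) (.var 3))).fv → x = 8 ∨ x = 9 ∨ x = 3 := by
    intro h
    rcases instT_fv _ _ h with h | h
    · exact Or.inl h
    · rcases gamT_fv _ _ _ h with h | h
      · exact Or.inr (Or.inl h)
      · exact Or.inr (Or.inr h)
  simp only [corrF, nmF, sgF, Fm.iff, Fm.imp, Fm.ex, Fm.or, Fm.fvN, Tm.fv_prT, Tm.fv, numeral_fv,
    Set.mem_union, Set.mem_sdiff, Set.mem_singleton_iff, Set.mem_empty_iff_false, false_or,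
    or_false] at hx
  simp only [Set.mem_insert_iff, Set.mem_singleton_iff] at h1 h2 ⊢
  generalize hP1 : (x ∈ (alF 𝒜).fvN) = P1 at *
  generalize hP2 : (x ∈ (caddT (.var 7)).fv) = P2 at *
  generalize hP3 : (x ∈ (instT (.var 8) (gamT i (.var 9) (.var 3))).fv) = P3 at *
  clear hP1 hP2 hP3
  by_cases e3 : x = 3
  · exact Or.inl e3
  by_cases e4 : x = 4
  · exact Or.inr e4
  exfalso
  rcases hx with h | h | h
  · tauto
  · tauto
  · tauto

theorem corrF_fvS : (corrF 𝒜 i).fvS ⊆ {i} := by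
  intro x hx
  simp only [corrF, nmF, sgF, Fm.iff, Fm.imp, Fm.ex, Fm.or, Fm.fvS, (alF_free 𝒜).2,
    Set.mem_union, Set.mem_singleton_iff, Set.mem_empty_iff_false, false_or,
    or_false] at hx
  simp only [Set.mem_singleton_iff]
  tauto

theorem leF_arith : (leF i).Arithmetical := by
  simp [leF, sgF, Fm.ex, Fm.or, Fm.Arithmetical]

theorem leF_fvN : (leF i).fvN ⊆ {0, 5} := by
  intro x hx
  simp only [leF, sgF, Fm.ex, Fm.or, Fm.fvN, Tm.fv_prT, Tm.fv, numeral_fv,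
    Set.mem_union, Set.mem_sdiff, Set.mem_singleton_iff, Set.mem_empty_iff_false, false_or,
    or_false] at hx
  simp only [Set.mem_insert_iff, Set.mem_singleton_iff]
  tauto

theorem leF_fvS : (leF i).fvS ⊆ {i} := by
  intro x hx
  simp only [leF, sgF, Fm.ex, Fm.or, Fm.fvS,
    Set.mem_union, Set.mem_singleton_iff, Set.mem_empty_iff_false, false_or,
    or_false] at hx
  simp only [Set.mem_singleton_iff]
  tauto

theorem maxF_fvN : (maxF 𝒜 i).fvN = ∅ := by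
  ext x
  have h1 : x ∈ 𝒜.axIn.fvN → x ∈ ({0, 1} : Set ℕ) := fun h => 𝒜.axIn_free.1 h
  have h2 : x ∈ (leF i).fvN → x ∈ ({0, 5} : Set ℕ) := fun h => leF_fvN h
  simp only [maxF, sgF, Fm.ex, Fm.imp, Fm.fvN, Tm.fv_prT, Tm.fv, numeral_fv,
    Set.mem_union, Set.mem_sdiff, Set.mem_singleton_iff, Set.mem_empty_iff_false, false_or,
    or_false, iff_false]
  simp only [Set.mem_insert_iff, Set.mem_singleton_iff] at h1 h2
  tauto

theorem maxF_fvS : (maxF 𝒜 i).fvS ⊆ {i} := by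
  intro x hx
  have h2 : x ∈ (leF i).fvS → x ∈ ({i} : Set ℕ) := fun h => leF_fvS h
  simp only [maxF, sgF, Fm.ex, Fm.imp, Fm.fvS, 𝒜.axIn_free.2,
    Set.mem_union, Set.mem_singleton_iff, Set.mem_empty_iff_false, false_or,
    or_false] at hx
  simp only [Set.mem_singleton_iff] at h2 ⊢
  tauto

theorem kap_sentence : (kap 𝒜 i).IsSentence := by
  constructor
  · ext x
    have h1 : x ∈ (corrF 𝒜 i).fvN → x ∈ ({3, 4} : Set ℕ) := fun h => corrF_fvN h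
    simp only [kap, Fm.exS, Fm.imp, Fm.fvN, maxF_fvN, Set.mem_union, Set.mem_sdiff,
      Set.mem_singleton_iff, Set.mem_empty_iff_false, or_false, iff_false]
    simp only [Set.mem_insert_iff, Set.mem_singleton_iff] at h1
    tauto
  · ext x
    have h1 : x ∈ (corrF 𝒜 i).fvS → x ∈ ({i} : Set ℕ) := fun h => corrF_fvS h
    have h2 : x ∈ (maxF 𝒜 i).fvS → x ∈ ({i} : Set ℕ) := fun h => maxF_fvS h
    simp only [kap, Fm.exS, Fm.imp, Fm.fvS, Set.mem_union, Set.mem_sdiff,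
      Set.mem_singleton_iff, Set.mem_empty_iff_false, iff_false]
    simp only [Set.mem_singleton_iff] at h1 h2
    tauto

theorem thF_fvN (h : TrOk 𝒜 i θ) : (thF i θ).fvN ⊆ {2} := by
  intro x hx
  have h1 : x ∈ (θ.sec (bv θ) i).fvN → x ∈ θ.fvN ∪ {bv θ} :=
    fun h' => Fm.sec_fvN (bv θ) i θ h.arith h'
  have h2 : x ∈ θ.fvN → x ∈ ({2} : Set ℕ) := fun h' => h.fvN h'
  simp only [thF, Fm.imp, Fm.fvN, Tm.fv, numeral_fv, Set.mem_union, Set.mem_sdiff,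
    Set.mem_singleton_iff, Set.mem_empty_iff_false, or_false] at hx
  simp only [Set.mem_union, Set.mem_singleton_iff] at h1 h2 ⊢
  tauto

theorem thF_fvS (h : TrOk 𝒜 i θ) : (thF i θ).fvS ⊆ {i} := by
  intro x hx
  have h1 : x ∈ (θ.sec (bv θ) i).fvS → x ∈ θ.fvS :=
    fun h' => Fm.sec_fvS (bv θ) i θ h.arith h'
  have h2 : x ∈ θ.fvS → x ∈ ({i} : Set ℕ) := fun h' => h.fvS h'
  simp only [thF, Fm.imp, Fm.fvS, Set.mem_union, Set.mem_empty_iff_false, false_or] at hx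
  exact h2 (h1 hx)

theorem rfF_fvN (h : TrOk 𝒜 i θ) : (rfF 𝒜 i θ).fvN ⊆ {5} := by
  intro x hx
  have h1 : x ∈ (thF i θ).fvN → x ∈ ({2} : Set ℕ) := fun h' => thF_fvN h h'
  have h2 : x ∈ 𝒜.prf.fvN → x ∈ ({1, 2} : Set ℕ) := fun h => 𝒜.prf_free.1 h
  have h3 : x ∈ 𝒜.axIn.fvN → x ∈ ({0, 1} : Set ℕ) := fun h => 𝒜.axIn_free.1 h
  have h4 : x ∈ (leF i).fvN → x ∈ ({0, 5} : Set ℕ) := fun h => leF_fvN h
  have h5 : x ∈ 𝒜.isPi.fvN → x ∈ ({2} : Set ℕ) := fun h => 𝒜.isPi_free.1 h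
  simp only [rfF, Arithmetization.Pr, Fm.imp, Fm.ex, Fm.fvN, Set.mem_union, Set.mem_sdiff,
    Set.mem_singleton_iff] at hx
  simp only [Set.mem_insert_iff, Set.mem_singleton_iff] at h1 h2 h3 h4 h5 ⊢
  tauto

theorem rfF_fvS (h : TrOk 𝒜 i θ) : (rfF 𝒜 i θ).fvS ⊆ {i} := by
  intro x hx
  have h1 : x ∈ (thF i θ).fvS → x ∈ ({i} : Set ℕ) := fun h' => thF_fvS h h'
  have h4 : x ∈ (leF i).fvS → x ∈ ({i} : Set ℕ) := fun h => leF_fvS h
  simp only [rfF, Arithmetization.Pr, Fm.imp, Fm.ex, Fm.fvS, 𝒜.prf_free.2, 𝒜.axIn_free.2,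
    𝒜.isPi_free.2, Set.mem_union, Set.mem_empty_iff_false, false_or] at hx
  tauto

theorem tauF_free (h : TrOk 𝒜 i θ) : (tauF 𝒜 i θ).FreeIn {0} := by
  constructor
  · intro x hx
    have h1 : x ∈ (rfF 𝒜 i θ).fvN → x ∈ ({5} : Set ℕ) := fun h' => rfF_fvN h h'
    have h2 : x ∈ (corrF 𝒜 i).fvN → x ∈ ({3, 4} : Set ℕ) := fun h => corrF_fvN h
    simp only [tauF, Gam, hF, h0F, sgF, Fm.imp, Fm.ex, Fm.fvN, Tm.fv_prT, Tm.fv, numeral_fv,
      Set.mem_union, Set.mem_sdiff, Set.mem_singleton_iff, Set.mem_empty_iff_false,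
      false_or, or_false] at hx
    simp only [Set.mem_insert_iff, Set.mem_singleton_iff] at h1 h2 ⊢
    tauto
  · ext x
    have h1 : x ∈ (rfF 𝒜 i θ).fvS → x ∈ ({i} : Set ℕ) := fun h' => rfF_fvS h h'
    have h2 : x ∈ (corrF 𝒜 i).fvS → x ∈ ({i} : Set ℕ) := fun h => corrF_fvS h
    simp only [tauF, Gam, hF, h0F, sgF, Fm.imp, Fm.ex, Fm.fvS,
      Set.mem_union, Set.mem_sdiff, Set.mem_singleton_iff, Set.mem_empty_iff_false,
      false_or, iff_false]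
    simp only [Set.mem_singleton_iff] at h1 h2
    tauto

theorem tauF_pi (h : TrOk 𝒜 i θ) : (tauF 𝒜 i θ).IsPi11 := by
  refine ⟨i, _, rfl, ?_⟩
  have h1 := @corrF_arith 𝒜 i
  have h2 := @leF_arith i
  have h3 := 𝒜.prf_arith
  have h4 := 𝒜.axIn_arith
  have h5 := 𝒜.isPi_arith
  have h6 := Fm.sec_arith (bv θ) i θ h.arith
  simp only [hF, h0F, rfF, thF, sgF, Arithmetization.Pr, Fm.imp, Fm.ex, Fm.Arithmetical]
  tauto

theorem instA_sentence (h : TrOk 𝒜 i θ) (n : ℕ) : (instA (tauF 𝒜 i θ) n).IsSentence := by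
  constructor
  · ext x
    have h1 : x ∈ (tauF 𝒜 i θ).fvN → x ∈ ({0} : Set ℕ) := fun h' => (tauF_free h).1 h'
    simp only [instA, Fm.imp, Fm.fvN, Tm.fv, numeral_fv, Set.mem_union, Set.mem_sdiff,
      Set.mem_singleton_iff, Set.mem_empty_iff_false, or_false, iff_false]
    simp only [Set.mem_singleton_iff] at h1
    tauto
  · simp [instA, Fm.imp, Fm.fvS, (tauF_free h).2]

end

end Pool.Agent.Y561.RF
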