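import Pool.Agent.Y561.RF.Iter2

/-!
The iterated version: the standard model.
-/

set_option autoImplicit false

namespace Pool.Agent.Y561.RF

open Pool.Agent.H986R3.SOA Function

section
variable {𝒜 : Arithmetization} {i : ℕ} {θ : Fm}

/-- `Corr` in the standard model. -/
def CorrN (𝒜 : Arithmetization) (i : ℕ) (W : Set ℕ) (h k : ℕ) : Prop :=
  (∀ y, pr 0 (pr 0 y) ∈ W ↔ y = pr 1 0) ∧
  (∀ u y, pr 0 (pr (u + 1) y) ∈ W ↔ ∃ y', pr 0 (pr u y') ∈ W ∧ y = pr 3 (pr y' (pr 2 0))) ∧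
  (∀ a : ℕ, pr 1 (pr 0 a) ∈ W ↔ (Pal 𝒜 std a ∨ a = k)) ∧
  (∀ u a, pr 1 (pr (u + 1) a) ∈ W ↔ ∃ b, pr 1 (pr u b) ∈ W ∧ ∃ y, pr 0 (pr b y) ∈ W ∧
      ∃ w, pr 0 (pr h w) ∈ W ∧ a = instN y (gam i w h))

theorem std_prN (a b : ℕ) : @Eq ℕ (std.pr a b) (pr a b) := rfl

theorem corr_std_iff (W : Set ℕ) (h k : ℕ) : Corr 𝒜 i std W h k ↔ CorrN 𝒜 i W h k := by
  have e0 : std.num 0 = (0 : ℕ) := std_num 0
  have e1 : std.num 1 = (1 : ℕ) := std_num 1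
  have e2 : std.num (pr 1 0) = (pr 1 0 : ℕ) := std_num _
  unfold Corr CorrN
  rw [e0, e1, e2]
  refine and_congr Iff.rfl (and_congr ?_ (and_congr Iff.rfl ?_))
  · refine forall_congr' fun (u : ℕ) => forall_congr' fun (y : ℕ) => ?_
    refine iff_congr Iff.rfl (exists_congr fun (y' : ℕ) => and_congr Iff.rfl ?_)
    rw [std_caddN]
    exact Iff.rfl
  · refine forall_congr' fun (u : ℕ) => forall_congr' fun (a : ℕ) => ?_
    refine iff_congr Iff.rfl (exists_congr fun (b : ℕ) => and_congr Iff.rfl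
      (exists_congr fun (y : ℕ) => and_congr Iff.rfl (exists_congr fun (w : ℕ) =>
        and_congr Iff.rfl ?_)))
    rw [std_gamN, std_instM]
    exact Iff.rfl

/-- The codes of stage `n`. -/
def SN (𝒜 : Arithmetization) (i h k : ℕ) : ℕ → Set ℕ
  | 0 => {a : ℕ | Pal 𝒜 std a ∨ a = k}
  | n + 1 => {a | ∃ b ∈ SN 𝒜 i h k n, a = instN (numeral b).code (gam i (numeral h).code h)}

/-- The tables. -/
def WN (𝒜 : Arithmetization) (i h k : ℕ) : Set ℕ :=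
  {m | (∃ n, m = pr 0 (pr n (numeral n).code)) ∨ ∃ n a, a ∈ SN 𝒜 i h k n ∧ m = pr 1 (pr n a)}

theorem mem_WN0 (h k n y : ℕ) : pr 0 (pr n y) ∈ WN 𝒜 i h k ↔ y = (numeral n).code := by
  constructor
  · rintro (⟨m, h1⟩ | ⟨m, a, _, h1⟩)
    · have h2 := pr_inj (pr_inj h1).2
      rw [h2.2, h2.1]
    · have h2 := (pr_inj h1).1
      omega
  · rintro rfl
    exact Or.inl ⟨n, rfl⟩

theorem mem_WN1 (h k n a : ℕ) : pr 1 (pr n a) ∈ WN 𝒜 i h k ↔ a ∈ SN 𝒜 i h k n := by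
  constructor
  · rintro (⟨m, h1⟩ | ⟨m, b, h3, h1⟩)
    · have h2 := (pr_inj h1).1
      omega
    · have h2 := pr_inj (pr_inj h1).2
      rw [h2.2, h2.1]
      exact h3
  · intro h1
    exact Or.inr ⟨n, a, h1, rfl⟩

theorem corr_WN (h k : ℕ) : Corr 𝒜 i std (WN 𝒜 i h k) h k := by
  rw [corr_std_iff]
  refine ⟨fun y => ?_, fun u y => ?_, fun a => ?_, fun u a => ?_⟩
  · rw [mem_WN0]; rfl
  · rw [mem_WN0]
    constructor
    · rintro rfl
      exact ⟨_, (mem_WN0 h k _ _).2 rfl, rfl⟩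
    · rintro ⟨y', h1, rfl⟩
      rw [mem_WN0] at h1
      rw [h1]
      rfl
  · rw [mem_WN1]; rfl
  · rw [mem_WN1]
    constructor
    · rintro ⟨b, h1, rfl⟩
      exact ⟨b, (mem_WN1 _ _ _ _).2 h1, _, (mem_WN0 _ _ _ _).2 rfl, _, (mem_WN0 _ _ _ _).2 rfl,
        rfl⟩
    · rintro ⟨b, h1, y, h2, w, h3, rfl⟩
      rw [mem_WN0] at h2 h3
      rw [mem_WN1] at h1
      exact ⟨b, h1, by rw [h2, h3]⟩

theorem corr_num {W : Set ℕ} {h k : ℕ} (hW : Corr 𝒜 i std W h k) (n : ℕ) :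
    ∀ y, pr 0 (pr n y) ∈ W ↔ y = (numeral n).code := by
  rw [corr_std_iff] at hW
  induction n with
  | zero => exact hW.1
  | succ n ih =>
    intro y
    rw [hW.2.1]
    constructor
    · rintro ⟨y', h1, rfl⟩
      rw [(ih y').1 h1]
      rfl
    · rintro rfl
      exact ⟨_, (ih _).2 rfl, rfl⟩

theorem corr_stage {W : Set ℕ} {h k : ℕ} (hW : Corr 𝒜 i std W h k) (n : ℕ) :
    ∀ a, pr 1 (pr n a) ∈ W ↔ a ∈ SN 𝒜 i h k n := by
  have hn := corr_num hW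
  rw [corr_std_iff] at hW
  induction n with
  | zero => exact hW.2.2.1
  | succ n ih =>
    intro a
    rw [hW.2.2.2]
    constructor
    · rintro ⟨b, h1, y, h2, w, h3, rfl⟩
      rw [hn] at h2 h3
      exact ⟨b, (ih b).1 h1, by rw [h2, h3]⟩
    · rintro ⟨b, h1, rfl⟩
      exact ⟨b, (ih b).2 h1, _, (hn _ _).2 rfl, _, (hn _ _).2 rfl, rfl⟩

theorem std_maxP (hfin : ∀ p, {a | SatN a p 0 𝒜.axIn}.Finite) (W : Set ℕ) :
    MaxP 𝒜 std W := by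
  have e1 : std.num 1 = (1 : ℕ) := std_num 1
  have hax : ∀ a p : ℕ, Pax 𝒜 std a p ↔ SatN a p 0 𝒜.axIn := fun a p => Iff.rfl
  intro (p : ℕ) hne hst
  obtain ⟨a0, ha0⟩ := hne
  have hf : {a : ℕ | Pax 𝒜 std a p}.Finite := hfin p
  haveI : Nonempty std.Num := ⟨(0 : ℕ)⟩
  choose! f hf2 using hst
  obtain ⟨a, ha, hmax⟩ := Set.exists_max_image (α := ℕ) (β := ℕ) {a : ℕ | Pax 𝒜 std a p} f hf
    ⟨a0, ha0⟩
  refine ⟨a, ha, f a, hf2 a ha, fun b hb => ⟨f b, ?_, hf2 b hb⟩⟩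
  exact lt_or_eq_of_le (hmax b hb)

/-- The axioms of stage `n`. -/
def stF (𝒜 : Arithmetization) (i : ℕ) (θ : Fm) : ℕ → Set Fm
  | 0 => {φ | φ ∈ baseT ∨ φ = rho 𝒜 ∨ φ = kap 𝒜 i}
  | n + 1 => {φ | ∃ ψ ∈ stF 𝒜 i θ n, φ = instA (tauF 𝒜 i θ) ψ.code}

/-- The theory. -/
def itT (𝒜 : Arithmetization) (i : ℕ) (θ : Fm) : Set Fm := {φ | ∃ n, φ ∈ stF 𝒜 i θ n}

theorem Pal_std (a : ℕ) : Pal 𝒜 std a ↔ (∃ φ ∈ baseT, φ.code = a) ∨ (rho 𝒜).code = a := by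
  have h0 : Pal 𝒜 std a ↔ Sat std (fun _ => a) (fun _ => ∅) (alF 𝒜) := Iff.rfl
  rw [h0, alF, Sat_or]
  refine or_congr (std_baseF 𝒜 _ _) ?_
  have h2 : Sat std (fun _ => a) (fun _ => ∅) (.eq (.var 0) (numeral (rho 𝒜).code)) ↔
      a = (numeral (rho 𝒜).code).val std (fun _ => a) := Iff.rfl
  rw [h2, std_nl]
  exact eq_comm

theorem mem_SN_iff (n : ℕ) : ∀ a, a ∈ SN 𝒜 i (hF 𝒜 i θ).code (kap 𝒜 i).code n ↔
    ∃ φ ∈ stF 𝒜 i θ n, φ.code = a := by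
  induction n with
  | zero =>
    intro a
    have h1 : a ∈ SN 𝒜 i (hF 𝒜 i θ).code (kap 𝒜 i).code 0 ↔
      Pal 𝒜 std a ∨ a = (kap 𝒜 i).code := Iff.rfl
    rw [h1, Pal_std]
    constructor
    · rintro ((⟨φ, h2, h3⟩ | h2) | h2)
      · exact ⟨φ, Or.inl h2, h3⟩
      · exact ⟨_, Or.inr (Or.inl rfl), h2⟩
      · exact ⟨_, Or.inr (Or.inr rfl), h2.symm⟩
    · rintro ⟨φ, h2 | rfl | rfl, h3⟩
      · exact Or.inl (Or.inl ⟨φ, h2, h3⟩)
      · exact Or.inl (Or.inr h3)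
      · exact Or.inr h3.symm
  | succ n ih =>
    intro a
    constructor
    · rintro ⟨b, h1, rfl⟩
      obtain ⟨ψ, h2, rfl⟩ := (ih b).1 h1
      exact ⟨_, ⟨ψ, h2, rfl⟩, rfl⟩
    · rintro ⟨φ, ⟨ψ, h2, rfl⟩, rfl⟩
      exact ⟨_, (ih _).2 ⟨ψ, h2, rfl⟩, rfl⟩

theorem numeral_inj : ∀ m n : ℕ, numeral m = numeral n → m = n := by
  intro m
  induction m with
  | zero =>
    intro n h
    cases n with
    | zero => rfl
    | succ n => simp [numeral] at h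
  | succ m ih =>
    intro n h
    cases n with
    | zero => simp [numeral] at h
    | succ n =>
      simp only [numeral, Tm.add.injEq, and_true] at h
      rw [ih n h]

theorem instA_inj {τ : Fm} {m n : ℕ} (h : instA τ m = instA τ n) : m = n := by
  simp only [instA, Fm.imp, Fm.all.injEq, Fm.neg.injEq, Fm.and.injEq, Fm.eq.injEq, true_and,
    and_true] at h
  exact numeral_inj m n h

theorem not_all0_stage0 {ψ : Fm} : Fm.all 0 ψ ∉ stF 𝒜 i θ 0 := by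
  rintro (h | h | h)
  · rcases h with h | ⟨χ, _, h⟩ | ⟨χ, _, h⟩
    · simp [baseL] at h
    · simp [fill, compTmp] at h
    · simp [fill, acTmp] at h
  · simp [rho, Arithmetization.reflection] at h
  · simp [kap] at h

theorem stage_unique (m : ℕ) : ∀ n φ, φ ∈ stF 𝒜 i θ m → φ ∈ stF 𝒜 i θ n → m = n := by
  induction m with
  | zero =>
    intro n φ h1 h2
    cases n with
    | zero => rfl
    | succ n =>
      obtain ⟨ψ, _, rfl⟩ := h2
      exact absurd h1 not_all0_stage0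
  | succ m ih =>
    intro n φ h1 h2
    cases n with
    | zero =>
      obtain ⟨ψ, _, rfl⟩ := h1
      exact absurd h2 not_all0_stage0
    | succ n =>
      obtain ⟨ψ, h3, rfl⟩ := h1
      obtain ⟨χ, h4, h5⟩ := h2
      have h6 := Fm.code_inj _ _ (instA_inj h5)
      subst h6
      rw [ih n ψ h3 h4]

end

end Pool.Agent.Y561.RF
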