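import Pool.Agent.Y561.RF.Iter3

/-!
The iterated version: the theorem.
-/

set_option autoImplicit false

namespace Pool.Agent.Y561.RF

open Pool.Agent.H986R3.SOA Function

section
variable {𝒜 : Arithmetization} {i : ℕ} {θ : Fm}

theorem rho_sentence : (rho 𝒜).IsSentence := reflection_sentence (falseF_free _)

theorem stF_sentence (h : TrOk 𝒜 i θ) (n : ℕ) : ∀ φ ∈ stF 𝒜 i θ n, φ.IsSentence := by
  induction n with
  | zero =>
    rintro φ (h1 | rfl | rfl)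
    · exact baseT_sentence h1
    · exact rho_sentence
    · exact kap_sentence
  | succ n ih =>
    rintro φ ⟨ψ, _, rfl⟩
    exact instA_sentence h _

theorem std_kap (hfin : ∀ p, {a | SatN a p 0 𝒜.axIn}.Finite) : std.Holds (kap 𝒜 i) := by
  intro v V _
  rw [Sat_kap]
  intro h k
  exact ⟨⟨WN 𝒜 i h k, trivial, corr_WN h k⟩, fun W _ _ => std_maxP hfin W⟩

theorem holds_instA (h : TrOk 𝒜 i θ) (M : Model) (n : ℕ) : M.Holds (instA (tauF 𝒜 i θ) n) ↔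
    TauM 𝒜 i θ M (M.num (hF 𝒜 i θ).code) (M.num (kap 𝒜 i).code) (M.num n) := by
  have h1 : ∀ (v : ℕ → M.Num) (V : ℕ → Set M.Num), Sat M v V (instA (tauF 𝒜 i θ) n) ↔
      TauM 𝒜 i θ M (M.num (hF 𝒜 i θ).code) (M.num (kap 𝒜 i).code) (M.num n) := by
    intro v V
    have h2 : Sat M v V (instA (tauF 𝒜 i θ) n) ↔ ∀ a, Sat M (update v 0 a) V
        (.imp (.eq (.var 0) (numeral n)) (tauF 𝒜 i θ)) := Iff.rfl
    have h3 : ∀ a, Sat M (update v 0 a) V (.eq (.var 0) (numeral n)) ↔ a = M.num n := by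
      intro a
      simp only [Sat, Tm.val, update_self, val_numeral]
    rw [h2]
    constructor
    · intro h4
      have h5 := h4 (M.num n)
      rw [Sat_imp, h3, Sat_tauF h, update_self] at h5
      exact h5 rfl
    · intro h4 a
      rw [Sat_imp, h3, Sat_tauF h, update_self]
      rintro rfl
      exact h4
  constructor
  · intro h2
    obtain ⟨V, hV⟩ := M.exists_setAsg
    exact (h1 (fun _ => M.zero) V).1 (h2 _ V hV)
  · intro h2 v V _
    exact (h1 v V).2 h2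

theorem stF_true (h : TrOk 𝒜 i θ) (hfin : ∀ p, {a | SatN a p 0 𝒜.axIn}.Finite) (n : ℕ) :
    ∀ φ ∈ stF 𝒜 i θ n, std.Holds φ := by
  induction n using Nat.strong_induction_on with
  | _ n ih =>
    cases n with
    | zero =>
      rintro φ (h1 | rfl | rfl)
      · exact std_base h1
      · exact std_rho
      · exact std_kap hfin
    | succ n =>
      rintro φ ⟨ψ, h1, rfl⟩
      rw [holds_instA h]
      have e1 : std.num (hF 𝒜 i θ).code = ((hF 𝒜 i θ).code : ℕ) := std_num _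
      have e2 : std.num (kap 𝒜 i).code = ((kap 𝒜 i).code : ℕ) := std_num _
      have e3 : std.num ψ.code = (ψ.code : ℕ) := std_num _
      have e4 : std.num 1 = (1 : ℕ) := std_num 1
      rw [e1, e2, e3]
      intro W _ hW
      have hst := corr_stage hW
      rw [e4]
      refine ⟨⟨(n : ℕ), (hst n ψ.code).2 ((mem_SN_iff n _).2 ⟨ψ, h1, rfl⟩)⟩, ?_⟩
      intro (s : ℕ) hs
      obtain ⟨χ, h2, h3⟩ := (mem_SN_iff s _).1 ((hst s ψ.code).1 hs)
      have h4 := Fm.code_inj _ _ h3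
      subst h4
      have h5 : s = n := stage_unique s n χ h2 h1
      subst h5
      intro x hx hp
      obtain ⟨p, hp, ha⟩ := hp
      refine (Ptr_iff h std x).1 ?_ _ trivial
      refine std_refl (T := {φ | ∃ u ≤ s, φ ∈ stF 𝒜 i θ u}) ?_ ?_ hx hp ?_
      · rintro φ ⟨u, _, h6⟩
        exact stF_sentence h u φ h6
      · rintro φ ⟨u, h7, h6⟩
        exact ih u (by omega) φ h6
      · intro a h6
        obtain ⟨(u : ℕ), h7, h8⟩ := ha a h6
        rw [e4] at h8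
        obtain ⟨φ, h9, h10⟩ := (mem_SN_iff u _).1 ((hst u a).1 h8)
        refine ⟨φ, ⟨u, ?_, h9⟩, h10⟩
        rcases h7 with h7 | h7
        · exact le_of_lt (h7 : (u : ℕ) < s)
        · exact le_of_eq h7

theorem itT_defines (h : TrOk 𝒜 i θ) (hfin : ∀ p, {a | SatN a p 0 𝒜.axIn}.Finite) :
    Pi11Defines (tauF 𝒜 i θ) (itT 𝒜 i θ) := by
  refine ⟨tauF_pi h, tauF_free h, fun n => ?_⟩
  have e1 : std.num (hF 𝒜 i θ).code = ((hF 𝒜 i θ).code : ℕ) := std_num _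
  have e2 : std.num (kap 𝒜 i).code = ((kap 𝒜 i).code : ℕ) := std_num _
  have e4 : std.num 1 = (1 : ℕ) := std_num 1
  have h1 : SatN n 0 0 (tauF 𝒜 i θ) ↔ _ := Sat_tauF h (M := std) (asg (A := ℕ) n 0 0)
    (fun _ => (∅ : Set ℕ))
  rw [h1]
  have e5 : asg (A := ℕ) n 0 0 0 = n := rfl
  constructor
  · intro h2
    rw [e1, e2] at h2
    obtain ⟨⟨s, h3⟩, _⟩ := h2 (WN 𝒜 i (hF 𝒜 i θ).code (kap 𝒜 i).code) trivial (corr_WN _ _)
    rw [e4] at h3
    obtain ⟨φ, h4, h5⟩ := (mem_SN_iff s _).1 ((mem_WN1 _ _ s n).1 h3)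
    exact ⟨φ, ⟨s, h4⟩, h5⟩
  · rintro ⟨φ, ⟨s, h2⟩, rfl⟩
    have h3 := stF_true h hfin (s + 1) _ ⟨φ, h2, rfl⟩
    rw [holds_instA h] at h3
    have e3 : std.num φ.code = (φ.code : ℕ) := std_num _
    rw [e3] at h3
    exact h3

/-- The formula used to add a section. -/
def addF : Fm :=
  .or (.ex 1 (.and (.eq (.var 0) (prT (numeral 0) (.var 1))) (.mem (.var 0) 0)))
    (.or (.ex 1 (.and (.eq (.var 0) (prT (numeral 1) (.var 1))) (.mem (.var 0) 0)))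
      (.ex 1 (.and (.eq (.var 0) (prT (numeral 2) (.var 1))) (.mem (.var 1) 1))))

/-- A set with the sections `0` and `1` of `W` and the section `X` at `2`. -/
theorem Good.add_section {M : Model} (hM : Good M) {W X : Set M.Num} (hW : W ∈ M.sets)
    (hX : X ∈ M.sets) : ∃ Z ∈ M.sets, (∀ a, M.pr (M.num 0) a ∈ Z ↔ M.pr (M.num 0) a ∈ W) ∧
      (∀ a, M.pr (M.num 1) a ∈ Z ↔ M.pr (M.num 1) a ∈ W) ∧
      ∀ a, M.pr (M.num 2) a ∈ Z ↔ a ∈ X := by
  set V : ℕ → Set M.Num := fun j => if j = 0 then W else X with hV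
  have h1 := hM.compr (φ := addF) (by simp [addF, Fm.ex, Fm.or, Fm.Arithmetical])
    (fun _ => M.zero) V (fun j => by simp only [hV]; split_ifs <;> assumption) 0
  refine ⟨_, h1, ?_⟩
  have h2 : ∀ b, b ∈ {a | Sat M (update (fun _ => M.zero) 0 a) V addF} ↔
      ((∃ c, b = M.pr (M.num 0) c ∧ b ∈ W) ∨ (∃ c, b = M.pr (M.num 1) c ∧ b ∈ W) ∨
        ∃ c, b = M.pr (M.num 2) c ∧ c ∈ X) := by
    intro b
    show Sat M (update (fun _ => M.zero) 0 b) V addF ↔ _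
    simp only [addF, Sat, Sat_ex, Sat_or, val_prT, Tm.val, val_numeral]
    simp [Function.update_apply, hV]
  have hne : ∀ m n : ℕ, m ≠ n → ∀ a b, M.pr (M.num m) a ≠ M.pr (M.num n) b := by
    intro m n hmn a b hab
    exact hmn (hM.num_inj _ _ (hM.prinj _ _ _ _ hab).1)
  refine ⟨fun a => ?_, fun a => ?_, fun a => ?_⟩
  · rw [h2]
    constructor
    · rintro (⟨c, _, h3⟩ | ⟨c, h3, _⟩ | ⟨c, h3, _⟩)
      · exact h3
      · exact absurd h3 (hne _ _ (by norm_num) _ _)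
      · exact absurd h3 (hne _ _ (by norm_num) _ _)
    · intro h3
      exact Or.inl ⟨a, rfl, h3⟩
  · rw [h2]
    constructor
    · rintro (⟨c, h3, _⟩ | ⟨c, _, h3⟩ | ⟨c, h3, _⟩)
      · exact absurd h3 (hne _ _ (by norm_num) _ _)
      · exact h3
      · exact absurd h3 (hne _ _ (by norm_num) _ _)
    · intro h3
      exact Or.inr (Or.inl ⟨a, rfl, h3⟩)
  · rw [h2]
    constructor
    · rintro (⟨c, h3, _⟩ | ⟨c, h3, _⟩ | ⟨c, h3, h4⟩)
      · exact absurd h3 (hne _ _ (by norm_num) _ _)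
      · exact absurd h3 (hne _ _ (by norm_num) _ _)
      · rw [(hM.prinj _ _ _ _ h3).2]
        exact h4
    · intro h3
      exact Or.inr (Or.inr ⟨a, rfl, h3⟩)

theorem corr_sections {M : Model} {W Z : Set M.Num} {h k : M.Num}
    (h0 : ∀ a, M.pr (M.num 0) a ∈ Z ↔ M.pr (M.num 0) a ∈ W)
    (h1 : ∀ a, M.pr (M.num 1) a ∈ Z ↔ M.pr (M.num 1) a ∈ W) (hW : Corr 𝒜 i M W h k) :
    Corr 𝒜 i M Z h k := by
  unfold Corr at hW ⊢
  simp only [h0, h1]
  exact hW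

theorem itT_reflection (h : TrOk 𝒜 i θ) :
    Proves (itT 𝒜 i θ) (𝒜.reflection (tauF 𝒜 i θ)) := by
  intro M hM v V hV
  have hg : Good M := good_of_base (fun φ hφ => hM φ ⟨0, Or.inl hφ⟩)
  rw [Sat_reflection v V (tauF_free h)]
  rintro x hx ⟨p, hp, ha⟩
  have ha' : ∀ a, Pax 𝒜 M a p →
      TauM 𝒜 i θ M (M.num (hF 𝒜 i θ).code) (M.num (kap 𝒜 i).code) a :=
    fun a h1 => (Sat_tauF h (fun _ => a) (fun _ => ∅)).1 (ha a h1)
  by_cases hne : ∃ a, Pax 𝒜 M a p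
  · have hkap := (Sat_kap (𝒜 := 𝒜) (i := i) v V).1
      (hM (kap 𝒜 i) ⟨0, Or.inr (Or.inr rfl)⟩ v V hV) (M.num (hF 𝒜 i θ).code)
      (M.num (kap 𝒜 i).code)
    obtain ⟨⟨W0, hW0, hC0⟩, hmax⟩ := hkap
    have hst : ∀ a, Pax 𝒜 M a p → ∃ s, M.pr (M.num 1) (M.pr s a) ∈ W0 := by
      intro a h1
      exact (ha' a h1 W0 hW0 hC0).1
    obtain ⟨a1, ha1, s, hs, hle⟩ := hmax W0 hW0 hC0 p hne hst
    rw [Ptr_iff h]
    intro X hX
    obtain ⟨W, hW, h0, h1, h2⟩ := hg.add_section hW0 hX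
    have hC := corr_sections h0 h1 hC0
    have h3 := ha' a1 ha1
    have h4 := (h3 W hW hC).2 s ((h1 _).2 hs) x hx
      ⟨p, hp, fun b hb => by
        obtain ⟨u, h5, h6⟩ := hle b hb
        exact ⟨u, h5, (h1 _).2 h6⟩⟩
    have h5 : {n | M.pr (M.add (M.num 1) M.one) n ∈ W} = X := by
      ext b
      exact h2 b
    rw [h5] at h4
    exact h4
  · have h1 := (Sat_rho (𝒜 := 𝒜) v V).1 (hM (rho 𝒜) ⟨0, Or.inr (Or.inl rfl)⟩ v V hV)
    exact h1 x p hx hp (fun a h2 => hne ⟨a, h2⟩)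

/-- The iterated version. -/
theorem iterated (𝒜 : Arithmetization) (hfin : ∀ p, {a | SatN a p 0 𝒜.axIn}.Finite) :
    ∃ (T : Set Fm) (τ : Fm), ExtendsSigmaAC0 T ∧ (∀ φ ∈ T, std.Holds φ) ∧ Pi11Defines τ T ∧
      Proves T (𝒜.reflection τ) ∧ ∀ φ ∈ T, instA τ φ.code ∈ T := by
  obtain ⟨i, θ, h⟩ := exists_trOk 𝒜
  refine ⟨itT 𝒜 i θ, tauF 𝒜 i θ, ⟨?_, ?_⟩, ?_, itT_defines h hfin, itT_reflection h, ?_⟩
  · rintro φ ⟨n, h1⟩
    exact stF_sentence h n φ h1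
  · intro φ hφ M hM
    exact base_proves hφ M (fun ψ hψ => hM ψ ⟨0, Or.inl hψ⟩)
  · rintro φ ⟨n, h1⟩
    exact stF_true h hfin n φ h1
  · rintro φ ⟨n, h1⟩
    exact ⟨n + 1, φ, h1, rfl⟩

end

end Pool.Agent.Y561.RF
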