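import Pool.Agent.Y561.RF.Form

/-!
For every arithmetization there is a true extension of `Sigma^1_1-AC_0` with a `Pi^1_1` definition
for which it proves its own `Pi^1_1`-soundness.
-/

set_option autoImplicit false

namespace Pool.Agent.Y561.RF

open Pool.Agent.H986R3.SOA Function

variable {𝒜 : Arithmetization}

/-- Reflection in `M` for the proofs whose axioms are in `A`. -/
def Refl (𝒜 : Arithmetization) (M : Model) (A : M.Num → Prop) : Prop :=
  ∀ x, PisPi 𝒜 M x → (∃ p, Pprf 𝒜 M p x ∧ ∀ a, Pax 𝒜 M a p → A a) → Ptr 𝒜 M x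

theorem Sat_Pr {M : Model} (v : ℕ → M.Num) (V : ℕ → Set M.Num) (α : Fm) :
    Sat M v V (𝒜.Pr α) ↔
      ∃ p, Pprf 𝒜 M p (v 2) ∧ ∀ a, Pax 𝒜 M a p → Sat M (update (update v 1 p) 0 a) V α := by
  rw [Arithmetization.Pr, Sat_ex]
  refine exists_congr fun p => ?_
  have h1 : Sat M (update v 1 p) V (.and 𝒜.prf (.all 0 (.imp 𝒜.axIn α))) ↔
      Sat M (update v 1 p) V 𝒜.prf ∧ ∀ a, Sat M (update (update v 1 p) 0 a) V (.imp 𝒜.axIn α) :=
    Iff.rfl
  rw [h1, Sat_prf]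
  refine and_congr ?_ (forall_congr' fun a => ?_)
  · simp
  · rw [Sat_imp, Sat_axIn]
    simp

theorem Sat_reflection {M : Model} (v : ℕ → M.Num) (V : ℕ → Set M.Num) {α : Fm}
    (hα : α.FreeIn {0}) : Sat M v V (𝒜.reflection α) ↔
      Refl 𝒜 M (fun a => Sat M (fun _ => a) (fun _ => ∅) α) := by
  have h1 : Sat M v V (𝒜.reflection α) ↔
      ∀ x, Sat M (update v 2 x) V (.imp (.and 𝒜.isPi (𝒜.Pr α)) 𝒜.tr) := Iff.rfl
  rw [h1, Refl]
  refine forall_congr' fun x => ?_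
  have h2 : Sat M (update v 2 x) V (.and 𝒜.isPi (𝒜.Pr α)) ↔
      Sat M (update v 2 x) V 𝒜.isPi ∧ Sat M (update v 2 x) V (𝒜.Pr α) := Iff.rfl
  rw [Sat_imp, Sat_tr, h2, Sat_isPi, Sat_Pr, and_imp]
  simp only [update_self]
  refine imp_congr_right fun _ => imp_congr_left (exists_congr fun p => and_congr_right fun _ =>
    forall_congr' fun a => imp_congr_right fun _ => ?_)
  exact Sat_free_asg M hα _ _ _ _ (fun j hj => by
    have : j = 0 := hj
    subst this
    simp)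

theorem Pr_free {α : Fm} (hα : α.FreeIn {0}) : (𝒜.Pr α).FreeIn {2} := by
  constructor
  · intro x hx
    simp only [Arithmetization.Pr, Fm.ex, Fm.imp, Fm.fvN, Set.mem_union, Set.mem_sdiff,
      Set.mem_singleton_iff] at hx
    have h1 : x ∈ 𝒜.prf.fvN → x ∈ ({1, 2} : Set ℕ) := fun h => 𝒜.prf_free.1 h
    have h2 : x ∈ 𝒜.axIn.fvN → x ∈ ({0, 1} : Set ℕ) := fun h => 𝒜.axIn_free.1 h
    have h3 : x ∈ α.fvN → x ∈ ({0} : Set ℕ) := fun h => hα.1 h
    simp only [Set.mem_insert_iff, Set.mem_singleton_iff] at h1 h2 h3 ⊢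
    tauto
  · ext x
    simp only [Arithmetization.Pr, Fm.ex, Fm.imp, Fm.fvS, 𝒜.prf_free.2, 𝒜.axIn_free.2, hα.2,
      Set.mem_union, Set.mem_empty_iff_false]
    tauto

theorem reflection_sentence {α : Fm} (hα : α.FreeIn {0}) : (𝒜.reflection α).IsSentence := by
  have h0 := @Pr_free 𝒜 α hα
  constructor
  · ext x
    simp only [Arithmetization.reflection, Fm.imp, Fm.fvN, Set.mem_union, Set.mem_sdiff,
      Set.mem_singleton_iff, Set.mem_empty_iff_false, iff_false]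
    have h1 : x ∈ 𝒜.isPi.fvN → x ∈ ({2} : Set ℕ) := fun h => 𝒜.isPi_free.1 h
    have h2 : x ∈ 𝒜.tr.fvN → x ∈ ({2} : Set ℕ) := fun h => 𝒜.tr_free.1 h
    have h3 : x ∈ (𝒜.Pr α).fvN → x ∈ ({2} : Set ℕ) := fun h => h0.1 h
    simp only [Set.mem_singleton_iff] at h1 h2 h3
    tauto
  · ext x
    simp only [Arithmetization.reflection, Fm.imp, Fm.fvS, 𝒜.isPi_free.2, 𝒜.tr_free.2, h0.2,
      Set.mem_union, Set.mem_empty_iff_false]
    tauto

theorem Pr_arith {α : Fm} (hα : α.Arithmetical) : (𝒜.Pr α).Arithmetical := by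
  simp only [Arithmetization.Pr, Fm.ex, Fm.imp, Fm.Arithmetical]
  exact ⟨𝒜.prf_arith, 𝒜.axIn_arith, hα⟩

/-- A false formula. -/
def falseF : Fm := .neg (.eq .zero .zero)

/-- Pure logic is `Pi^1_1`-sound. -/
def rho (𝒜 : Arithmetization) : Fm := 𝒜.reflection falseF

theorem falseF_free (s : Set ℕ) : falseF.FreeIn s := by
  constructor
  · intro x hx
    simp [falseF, Fm.fvN, Tm.fv] at hx
  · simp [falseF, Fm.fvS]

theorem Sat_rho {M : Model} (v : ℕ → M.Num) (V : ℕ → Set M.Num) :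
    Sat M v V (rho 𝒜) ↔ ∀ x p, PisPi 𝒜 M x → Pprf 𝒜 M p x → (∀ a, ¬ Pax 𝒜 M a p) →
      Ptr 𝒜 M x := by
  rw [rho, Sat_reflection v V (falseF_free _)]
  have h1 : ∀ a : M.Num, ¬ Sat M (fun _ => a) (fun _ => ∅) falseF := fun a h => h rfl
  constructor
  · intro h x p hx hp ha
    exact h x hx ⟨p, hp, fun a h2 => absurd h2 (ha a)⟩
  · rintro h x hx ⟨p, hp, ha⟩
    exact h x p hx hp (fun a h2 => h1 a (ha a h2))

theorem std_rho : std.Holds (rho 𝒜) := by
  intro v V _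
  rw [Sat_rho]
  intro x p hx hp ha
  exact std_refl (T := ∅) (fun _ h => h.elim) (fun _ h => h.elim) hx hp
    (fun a h => absurd h (ha a))

/-- The simple version. -/
theorem simple (𝒜 : Arithmetization) : ∃ (T : Set Fm) (τ : Fm), ExtendsSigmaAC0 T ∧
    (∀ φ ∈ T, std.Holds φ) ∧ Pi11Defines τ T ∧ Proves T (𝒜.reflection τ) := by
  obtain ⟨i, θ, htr, hθ⟩ := 𝒜.tr_pi
  set α : Fm := .or (baseF 𝒜) (.eq (.var 0) (numeral (rho 𝒜).code)) with hα
  have hαf : α.FreeIn {0} := by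
    constructor
    · intro x hx
      simp only [hα, Fm.or, Fm.fvN, Tm.fv, numeral_fv, Set.mem_union,
        Set.mem_empty_iff_false, or_false] at hx
      rcases hx with hx | hx
      · exact (baseF_free 𝒜).1 hx
      · exact hx
    · simp [hα, Fm.or, Fm.fvS, (baseF_free 𝒜).2]
  have hαa : α.Arithmetical := ⟨baseF_arith 𝒜, trivial⟩
  set τ : Fm := .allS i (.and α (.all 2 (.imp (.and 𝒜.isPi (𝒜.Pr α)) θ))) with hτ
  have hPf := @Pr_free 𝒜 α hαf
  have hθN : θ.fvN ⊆ {2} := by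
    have := 𝒜.tr_free.1
    rw [htr] at this
    exact this
  have hθS : θ.fvS ⊆ {i} := by
    have h2 : θ.fvS \ {i} = ∅ := by
      have := 𝒜.tr_free.2
      rw [htr] at this
      exact this
    intro x hx
    by_contra hne
    have : x ∈ θ.fvS \ {i} := ⟨hx, hne⟩
    rw [h2] at this
    exact this
  have hτf : τ.FreeIn {0} := by
    constructor
    · intro x hx
      simp only [hτ, Fm.imp, Fm.fvN, Set.mem_union, Set.mem_sdiff, Set.mem_singleton_iff] at hx
      have h1 : x ∈ 𝒜.isPi.fvN → x ∈ ({2} : Set ℕ) := fun h => 𝒜.isPi_free.1 h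
      have h2 : x ∈ θ.fvN → x ∈ ({2} : Set ℕ) := fun h => hθN h
      have h3 : x ∈ (𝒜.Pr α).fvN → x ∈ ({2} : Set ℕ) := fun h => hPf.1 h
      have h4 : x ∈ α.fvN → x ∈ ({0} : Set ℕ) := fun h => hαf.1 h
      simp only [Set.mem_singleton_iff] at h1 h2 h3 h4 ⊢
      tauto
    · ext x
      simp only [hτ, Fm.imp, Fm.fvS, Set.mem_union, Set.mem_sdiff, Set.mem_singleton_iff,
        𝒜.isPi_free.2, hPf.2, hαf.2, Set.mem_empty_iff_false, iff_false]
      have h1 : x ∈ θ.fvS → x ∈ ({i} : Set ℕ) := fun h => hθS h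
      simp only [Set.mem_singleton_iff] at h1
      tauto
  have hsat : ∀ (M : Model) (v : ℕ → M.Num) (V : ℕ → Set M.Num), Sat M v V τ ↔
      Sat M (fun _ => v 0) (fun _ => ∅) α ∧
        Refl 𝒜 M (fun a => Sat M (fun _ => a) (fun _ => ∅) α) := by
    intro M v V
    have h1 : Sat M v V τ ↔ ∀ A ∈ M.sets, Sat M v (update V i A) α ∧
        ∀ x, Sat M (update v 2 x) (update V i A) (.imp (.and 𝒜.isPi (𝒜.Pr α)) θ) := Iff.rfl
    have h2 : ∀ A, Sat M v (update V i A) α ↔ Sat M (fun _ => v 0) (fun _ => ∅) α := by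
      intro A
      exact Sat_free_asg M hαf _ _ _ _ (fun j hj => by
        have : j = 0 := hj
        subst this
        rfl)
    have h3 : ∀ A x, Sat M (update v 2 x) (update V i A) (.and 𝒜.isPi (𝒜.Pr α)) ↔
        PisPi 𝒜 M x ∧ ∃ p, Pprf 𝒜 M p x ∧ ∀ a, Pax 𝒜 M a p →
          Sat M (fun _ => a) (fun _ => ∅) α := by
      intro A x
      have h4 : Sat M (update v 2 x) (update V i A) (.and 𝒜.isPi (𝒜.Pr α)) ↔
        Sat M (update v 2 x) (update V i A) 𝒜.isPi ∧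
          Sat M (update v 2 x) (update V i A) (𝒜.Pr α) := Iff.rfl
      rw [h4, Sat_isPi, Sat_Pr]
      simp only [update_self]
      refine and_congr_right fun _ => exists_congr fun p => and_congr_right fun _ =>
        forall_congr' fun a => imp_congr_right fun _ => ?_
      exact Sat_free_asg M hαf _ _ _ _ (fun j hj => by
        have : j = 0 := hj
        subst this
        simp)
    have h5 : ∀ x, Ptr 𝒜 M x ↔ ∀ A ∈ M.sets, Sat M (update v 2 x) (update V i A) θ := by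
      intro x
      have h6 := Sat_tr (𝒜 := 𝒜) (update v 2 x) V
      rw [update_self] at h6
      rw [← h6, htr]
      rfl
    rw [h1]
    constructor
    · intro h
      obtain ⟨B, hB⟩ := M.sets_nonempty
      refine ⟨(h2 B).1 (h B hB).1, fun x hx hp => ?_⟩
      rw [h5]
      intro A hA
      have h7 := (h A hA).2 x
      rw [Sat_imp, h3] at h7
      exact h7 ⟨hx, hp⟩
    · rintro ⟨h6, h7⟩ A hA
      refine ⟨(h2 A).2 h6, fun x => ?_⟩
      rw [Sat_imp, h3]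
      rintro ⟨hx, hp⟩
      exact (h5 x).1 (h7 x hx hp) A hA
  set T : Set Fm := {φ | φ ∈ baseT ∨ φ = rho 𝒜} with hT
  have hstdα : ∀ (v : ℕ → ℕ) (V : ℕ → Set ℕ), Sat std v V α ↔ ∃ φ ∈ T, φ.code = v 0 := by
    intro v V
    rw [hα, Sat_or, std_baseF]
    have h1 : Sat std v V (.eq (.var 0) (numeral (rho 𝒜).code)) ↔ (rho 𝒜).code = v 0 := by
      have h2 : Sat std v V (.eq (.var 0) (numeral (rho 𝒜).code)) ↔
          v 0 = (numeral (rho 𝒜).code).val std v := Iff.rfl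
      rw [h2, std_nl]
      exact eq_comm
    rw [h1]
    constructor
    · rintro (⟨φ, h2, h3⟩ | h2)
      · exact ⟨φ, Or.inl h2, h3⟩
      · exact ⟨rho 𝒜, Or.inr rfl, h2⟩
    · rintro ⟨φ, h2 | h2, h3⟩
      · exact Or.inl ⟨φ, h2, h3⟩
      · rw [h2] at h3
        exact Or.inr h3
  have hTs : ∀ φ ∈ T, φ.IsSentence := by
    rintro φ (h | rfl)
    · exact baseT_sentence h
    · exact reflection_sentence (falseF_free _)
  have hTt : ∀ φ ∈ T, std.Holds φ := by
    rintro φ (h | rfl)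
    · exact std_base h
    · exact std_rho
  refine ⟨T, τ, ⟨hTs, fun φ hφ M hM => base_proves hφ M (fun ψ hψ => hM ψ (Or.inl hψ))⟩, hTt,
    ⟨⟨i, _, rfl, hαa, ?_⟩, hτf, ?_⟩, ?_⟩
  · simp only [Fm.imp, Fm.Arithmetical]
    exact ⟨⟨𝒜.isPi_arith, Pr_arith hαa⟩, hθ⟩
  · intro n
    have h1 : SatN n 0 0 τ ↔ _ := hsat std (asg (A := ℕ) n 0 0) (fun _ => (∅ : Set ℕ))
    rw [h1, hstdα]
    constructor
    · exact fun h => h.1
    · intro h
      refine ⟨h, fun x hx hp => ?_⟩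
      obtain ⟨p, hp, ha⟩ := hp
      exact std_refl hTs hTt hx hp (fun a h2 => (hstdα _ _).1 (ha a h2))
  · intro M hM v V hV
    rw [Sat_reflection v V hτf]
    rintro x hx ⟨p, hp, ha⟩
    by_cases hne : ∃ a, Pax 𝒜 M a p
    · obtain ⟨a, h1⟩ := hne
      have h2 := ((hsat M _ _).1 (ha a h1)).2
      exact h2 x hx ⟨p, hp, fun b hb => ((hsat M _ _).1 (ha b hb)).1⟩
    · have h1 := (Sat_rho (𝒜 := 𝒜) v V).1 (hM (rho 𝒜) (Or.inr rfl) v V hV)
      exact h1 x p hx hp (fun a h2 => hne ⟨a, h2⟩)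

end Pool.Agent.Y561.RF
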